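import Mathlib

/-! Colourings of finite sets of lattice points with no three collinear points of one colour:
basic facts, an averaging lemma, random colourings, a divisor bound and conics mod p. -/

namespace Pool.Agent.H.MP_1efb31_co
open Finset

abbrev P := ℤ × ℤ

def det (a b c : P) : ℤ := (b.1 - a.1) * (c.2 - a.2) - (b.2 - a.2) * (c.1 - a.1)

def Col (R : Finset P) (K : ℕ) : Prop :=
  ∃ f : P → ℕ, (∀ a ∈ R, f a < K) ∧ ∀ a ∈ R, ∀ b ∈ R, ∀ c ∈ R, a ≠ b → a ≠ c → b ≠ c →
    det a b c = 0 → f a = f b → f a = f c → False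

lemma Col.mono {R S : Finset P} {K : ℕ} (h : Col S K) (hs : R ⊆ S) : Col R K := by
  obtain ⟨f, h1, h2⟩ := h
  exact ⟨f, fun a ha => h1 a (hs ha), fun a ha b hb c hc => h2 a (hs ha) b (hs hb) c (hs hc)⟩

lemma Col.le {R : Finset P} {K L : ℕ} (h : Col R K) (hl : K ≤ L) : Col R L := by
  obtain ⟨f, h1, h2⟩ := h
  exact ⟨f, fun a ha => (h1 a ha).trans_le hl, h2⟩

lemma Col.union {R S : Finset P} {K L : ℕ} (h : Col R K) (h' : Col S L) :
    Col (R ∪ S) (K + L) := by
  obtain ⟨f, h1, h2⟩ := h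
  obtain ⟨g, g1, g2⟩ := h'
  have m : ∀ a ∈ R ∪ S, a ∉ R → a ∈ S := fun a ha hn => (mem_union.mp ha).resolve_left hn
  refine ⟨fun a => if a ∈ R then f a else K + g a, fun a ha => ?_,
    fun a ha b hb c hc ab ac bc hd e1 e2 => ?_⟩
  · by_cases hr : a ∈ R
    · have := h1 a hr
      simp only [hr, if_true]; omega
    · have := g1 a (m a ha hr)
      simp only [hr, if_false]; omega
  · by_cases ra : a ∈ R <;> by_cases rb : b ∈ R <;> by_cases rc : c ∈ R <;>
      simp only [ra, rb, rc, if_true, if_false] at e1 e2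
    · exact h2 a ra b rb c rc ab ac bc hd e1 e2
    · have := h1 a ra; omega
    · have := h1 a ra; omega
    · have := h1 a ra; omega
    · have := h1 b rb; omega
    · have := h1 b rb; omega
    · have := h1 c rc; omega
    · exact g2 a (m a ha ra) b (m b hb rb) c (m c hc rc) ab ac bc hd (by omega) (by omega)

lemma col_one {R : Finset P} (h : ∀ a ∈ R, ∀ b ∈ R, ∀ c ∈ R, a ≠ b → a ≠ c → b ≠ c →
    det a b c = 0 → False) : Col R 1 :=
  ⟨fun _ => 0, fun _ _ => Nat.one_pos, fun a ha b hb c hc ab ac bc hd _ _ =>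
    h a ha b hb c hc ab ac bc hd⟩

lemma col_biUnion {ι : Type*} [DecidableEq ι] (s : Finset ι) (g : ι → Finset P)
    (h : ∀ i ∈ s, Col (g i) 1) : Col (s.biUnion g) s.card := by
  induction s using Finset.induction_on with
  | empty => exact ⟨fun _ => 0, by simp, by simp⟩
  | insert i s hi ih =>
    rw [biUnion_insert, card_insert_of_notMem hi, add_comm]
    exact (h i (mem_insert_self _ _)).union (ih fun j hj => h j (mem_insert_of_mem hj))

lemma col_card (R : Finset P) : Col R R.card := by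
  have := col_biUnion R (fun a => {a}) (fun a _ => col_one fun b hb c hc _ _ bc => by
    rw [mem_singleton] at hb hc
    exact absurd (hb.trans hc.symm) bc)
  rwa [biUnion_singleton_eq_self] at this

lemma Col.pull {R : Finset P} {K : ℕ} (ψ : P → P) (inj : Function.Injective ψ)
    (hd : ∀ a b c, det a b c = 0 → det (ψ a) (ψ b) (ψ c) = 0) (h : Col (R.image ψ) K) :
    Col R K := by
  obtain ⟨f, h1, h2⟩ := h
  exact ⟨fun a => f (ψ a), fun a ha => h1 _ (mem_image_of_mem _ ha),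
    fun a ha b hb c hc ab ac bc hh => h2 _ (mem_image_of_mem _ ha) _ (mem_image_of_mem _ hb) _
      (mem_image_of_mem _ hc) (inj.ne ab) (inj.ne ac) (inj.ne bc) (hd _ _ _ hh)⟩

lemma avg {Ω ε : Type*} (G : Finset Ω) (hG : G.Nonempty) (E : Finset ε) (r : Ω → ε → Prop)
    [∀ ω e, Decidable (r ω e)] (A B : ℕ) (h : ∀ e ∈ E, (G.filter (r · e)).card * A ≤ B) :
    ∃ ω ∈ G, (E.filter (r ω)).card * A * G.card ≤ E.card * B := by
  apply exists_le_of_sum_le hG
  have e1 : ∑ ω ∈ G, (E.filter (r ω)).card = ∑ e ∈ E, (G.filter (r · e)).card := by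
    simp only [card_filter]
    exact sum_comm
  rw [← sum_mul, ← sum_mul, e1, sum_mul, sum_const, smul_eq_mul, mul_comm G.card]
  refine Nat.mul_le_mul_right _ ?_
  rw [← smul_eq_mul, ← sum_const]
  exact sum_le_sum h

lemma mono_count {α : Type*} [Fintype α] [DecidableEq α] (K : ℕ) {a b c : α} (ab : a ≠ b)
    (ac : a ≠ c) (bc : b ≠ c) :
    (univ.filter fun g : α → Fin K => g a = g b ∧ g a = g c).card * K ^ 2 ≤
      (univ : Finset (α → Fin K)).card := by
  have : ((univ.filter fun g : α → Fin K => g a = g b ∧ g a = g c) ×ˢ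
      (univ : Finset (Fin K × Fin K))).card ≤ (univ : Finset (α → Fin K)).card := by
    refine card_le_card_of_injOn
      (fun x => Function.update (Function.update x.1 b x.2.1) c x.2.2) (by simp) ?_
    rintro ⟨g, s, t⟩ hg ⟨g', s', t'⟩ hg' e
    simp only [coe_product, coe_filter, Set.mem_prod, Set.mem_setOf_eq, mem_univ, true_and,
      coe_univ, Set.mem_univ, and_true] at hg hg'
    have ec := congrFun e c
    have eb := congrFun e b
    have ea := congrFun e a
    simp only [Function.update_self, Function.update_of_ne bc, Function.update_of_ne ac,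
      Function.update_of_ne ab] at ea eb ec
    refine Prod.ext (funext fun x => ?_) (Prod.ext eb ec)
    by_cases xb : x = b
    · subst xb; exact hg.1.symm.trans (ea.trans hg'.1)
    by_cases xc : x = c
    · subst xc; exact hg.2.symm.trans (ea.trans hg'.2)
    have ex := congrFun e x
    simpa only [Function.update_of_ne xb, Function.update_of_ne xc] using ex
  simpa [sq] using this

lemma rc (S : Finset P) (E : Finset (P × P × P)) (K : ℕ) (hK : 0 < K)
    (hcov : ∀ a ∈ S, ∀ b ∈ S, ∀ c ∈ S, a ≠ b → a ≠ c → b ≠ c → det a b c = 0 →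
      (a, b, c) ∈ E ∨ (a, c, b) ∈ E) : ∃ m, m * K ^ 2 ≤ E.card ∧ Col S (K + m) := by
  classical
  let E' : Finset (S × S × S) := univ.filter fun e =>
    e.1 ≠ e.2.1 ∧ e.1 ≠ e.2.2 ∧ e.2.1 ≠ e.2.2 ∧ (e.1.1, e.2.1.1, e.2.2.1) ∈ E
  have hE' : E'.card ≤ E.card := by
    refine card_le_card_of_injOn (fun e => (e.1.1, e.2.1.1, e.2.2.1)) (fun e he => ?_) ?_
    · exact (mem_filter.mp he).2.2.2.2
    · rintro ⟨a, b, c⟩ _ ⟨a', b', c'⟩ _ e
      simp only [Prod.mk.injEq] at e
      exact Prod.ext (Subtype.ext e.1) (Prod.ext (Subtype.ext e.2.1) (Subtype.ext e.2.2))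
  have ne : (univ : Finset (S → Fin K)).Nonempty := ⟨fun _ => ⟨0, hK⟩, mem_univ _⟩
  obtain ⟨g, -, hg⟩ := avg univ ne E' (fun g e => g e.1 = g e.2.1 ∧ g e.1 = g e.2.2) (K ^ 2)
    (univ : Finset (S → Fin K)).card (fun e he => by
      obtain ⟨h1, h2, h3, -⟩ := (mem_filter.mp he).2
      exact mono_count K h1 h2 h3)
  have hg' := Nat.le_of_mul_le_mul_right hg (card_pos.mpr ne)
  set B := E'.filter fun e => g e.1 = g e.2.1 ∧ g e.1 = g e.2.2 with hB
  refine ⟨B.card, hg'.trans hE', ?_⟩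
  have c2 : Col (B.image fun e => e.1.1) B.card := (col_card _).le card_image_le
  have c1 : Col (S \ B.image fun e => e.1.1) K := by
    refine ⟨fun a => if h : a ∈ S then (g ⟨a, h⟩).1 else 0, fun a ha => ?_,
      fun a ha b hb c hc ab ac bc hd e1 e2 => ?_⟩
    · simp [(mem_sdiff.mp ha).1]
    · obtain ⟨a1, a2⟩ := mem_sdiff.mp ha
      have b1 := (mem_sdiff.mp hb).1
      have c1 := (mem_sdiff.mp hc).1
      simp only [a1, b1, c1, dif_pos] at e1 e2
      apply a2
      rcases hcov a a1 b b1 c c1 ab ac bc hd with h | h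
      · refine mem_image.mpr ⟨(⟨a, a1⟩, ⟨b, b1⟩, ⟨c, c1⟩), mem_filter.mpr ⟨mem_filter.mpr
          ⟨mem_univ _, ?_, ?_, ?_, h⟩, Fin.ext e1, Fin.ext e2⟩, rfl⟩ <;> simpa
      · refine mem_image.mpr ⟨(⟨a, a1⟩, ⟨c, c1⟩, ⟨b, b1⟩), mem_filter.mpr ⟨mem_filter.mpr
          ⟨mem_univ _, ?_, ?_, ?_, h⟩, Fin.ext e2, Fin.ext e1⟩, rfl⟩
        · simpa
        · simpa
        · simpa using bc.symm
  refine (c1.union c2).mono fun a ha => ?_
  by_cases h : a ∈ B.image fun e => e.1.1
  · exact mem_union_right _ h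
  · exact mem_union_left _ (mem_sdiff.mpr ⟨ha, h⟩)

lemma pow8 (a : ℕ) : (a + 1) ^ 8 ≤ 2 ^ 40 * 2 ^ a := by
  induction a with
  | zero => norm_num
  | succ a ih =>
    by_cases h : a < 16
    · interval_cases a <;> norm_num
    · have h1 : 16 * (a + 1 + 1) ≤ 17 * (a + 1) := by omega
      have h2 := Nat.pow_le_pow_left h1 8
      rw [mul_pow, mul_pow] at h2
      rw [pow_succ 2 a]
      norm_num at h2 ih ⊢
      omega

lemma dv_bound : ∃ c : ℕ, ∀ m : ℕ, m ≠ 0 → m.divisors.card ^ 8 ≤ c * m := by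
  refine ⟨(2 ^ 40) ^ 256, fun m hm => ?_⟩
  rw [Nat.card_divisors hm, ← prod_pow]
  have e : m = ∏ q ∈ m.primeFactors, q ^ m.factorization q :=
    (Nat.factorization_prod_pow_eq_self hm).symm
  have h1 : ∏ q ∈ m.primeFactors, (m.factorization q + 1) ^ 8 ≤
      ∏ q ∈ m.primeFactors, ((if q < 256 then 2 ^ 40 else 1) * q ^ m.factorization q) := by
    refine prod_le_prod' fun q hq => ?_
    have q2 := (Nat.prime_of_mem_primeFactors hq).two_le
    split_ifs with h
    · exact (pow8 _).trans (Nat.mul_le_mul_left _ (Nat.pow_le_pow_left q2 _))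
    · rw [one_mul]
      calc _ ≤ (2 ^ m.factorization q) ^ 8 := Nat.pow_le_pow_left Nat.lt_two_pow_self _
        _ = 256 ^ m.factorization q := by rw [← pow_mul, mul_comm, pow_mul]; norm_num
        _ ≤ _ := Nat.pow_le_pow_left (by omega) _
  rw [prod_mul_distrib, ← e, prod_ite, prod_const, prod_const, one_pow, mul_one] at h1
  refine h1.trans (Nat.mul_le_mul_right _ (Nat.pow_le_pow_right (by norm_num) ?_))
  calc _ ≤ (range 256).card := card_le_card fun q hq => mem_range.mpr (mem_filter.mp hq).2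
    _ = 256 := card_range _

lemma card_dvd (s : Finset ℤ) {m : ℤ} (hm : m ≠ 0) (h : ∀ y ∈ s, y ∣ m) :
    s.card ≤ 2 * m.natAbs.divisors.card := by
  have : s ⊆ (m.natAbs.divisors.image fun k : ℕ => (k : ℤ)) ∪
      (m.natAbs.divisors.image fun k : ℕ => -(k : ℤ)) := fun y hy => by
    have hd : y.natAbs ∈ m.natAbs.divisors :=
      Nat.mem_divisors.mpr ⟨Int.natAbs_dvd_natAbs.mpr (h y hy), Int.natAbs_ne_zero.mpr hm⟩
    rcases Int.natAbs_eq y with e | e
    · exact mem_union_left _ (mem_image.mpr ⟨_, hd, e.symm⟩)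
    · exact mem_union_right _ (mem_image.mpr ⟨_, hd, e.symm⟩)
  have h1 := (card_le_card this).trans (card_union_le _ _)
  have h2 : (m.natAbs.divisors.image fun k : ℕ => (k : ℤ)).card ≤ _ := card_image_le
  have h3 : (m.natAbs.divisors.image fun k : ℕ => -(k : ℤ)).card ≤ _ := card_image_le
  omega

lemma conicF {F : Type*} [Field F] {x1 y1 x2 y2 x3 y3 : F}
    (hd : (x2 - x1) * (y3 - y1) - (y2 - y1) * (x3 - x1) = 0) (h1 : x1 * y1 ≠ 0)
    (h2 : x1 * y1 = x2 * y2) (h3 : x1 * y1 = x3 * y3) :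
    (x1 = x2 ∧ y1 = y2) ∨ (x1 = x3 ∧ y1 = y3) ∨ (x2 = x3 ∧ y2 = y3) := by
  have n1 : x1 ≠ 0 := left_ne_zero_of_mul h1
  by_cases e2 : x1 = x2
  · subst e2; exact Or.inl ⟨rfl, mul_left_cancel₀ n1 h2⟩
  by_cases e3 : x1 = x3
  · subst e3; exact Or.inr (Or.inl ⟨rfl, mul_left_cancel₀ n1 h3⟩)
  have e : (x2 - x1) * (x3 - x1) * (y2 - y3) = 0 := by
    linear_combination (-(x3 - x1)) * h2 + (x2 - x1) * h3 + x1 * hd
  have e4 : y2 = y3 := by
    rcases mul_eq_zero.mp e with h | h
    · rcases mul_eq_zero.mp h with h | h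
      · exact absurd (sub_eq_zero.mp h).symm e2
      · exact absurd (sub_eq_zero.mp h).symm e3
    · exact sub_eq_zero.mp h
  subst e4
  have n2 : y2 ≠ 0 := right_ne_zero_of_mul (h2 ▸ h1)
  exact Or.inr (Or.inr ⟨mul_right_cancel₀ n2 (h2.symm.trans h3), rfl⟩)

end Pool.Agent.H.MP_1efb31_co
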