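import Pool.Agent.H.MP_1efb31_co.A

/-! Counting lemmas for absorbing the two asymptotes of a family of modular hyperbolas. -/

namespace Pool.Agent.H.MP_1efb31_co
open Finset

variable {p : ℕ} [Fact p.Prime]

lemma ppos : (0 : ℤ) < p := by exact_mod_cast (Fact.out : p.Prime).pos

lemma eq_of_cast_div {s t : ℤ} (h : (s : ZMod p) = t) (h' : s / p = t / p) : s = t := by
  rw [ZMod.intCast_eq_intCast_iff'] at h
  rw [← Int.mul_ediv_add_emod s p, ← Int.mul_ediv_add_emod t p, h, h']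

lemma div_mem {c : ℕ} {s : ℤ} (h : |s| ≤ c * p) : s / p ∈ Icc (-c : ℤ) c := by
  rw [abs_le] at h
  rw [mem_Icc, Int.le_ediv_iff_mul_le ppos]
  refine ⟨by linarith, Int.ediv_le_of_le_mul ppos h.2⟩

lemma card_res (c : ℕ) (s : Finset ℤ) (t : ZMod p) (h : ∀ m ∈ s, |m| ≤ c * p ∧ (m : ZMod p) = t) :
    s.card ≤ 2 * c + 1 := by
  have : s.card ≤ (Icc (-c : ℤ) c).card := by
    refine card_le_card_of_injOn (fun m => m / p) (fun m hm => div_mem (h m hm).1) ?_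
    intro m hm m' hm' e
    exact eq_of_cast_div ((h m hm).2.trans (h m' hm').2.symm) e
  rw [Int.card_Icc] at this
  omega

lemma pair_count {F : Type*} [Field F] [Fintype F] [DecidableEq F] (u1 w1 u2 w2 : F) {k1 k2 : F}
    (hk : k1 ≠ k2) : (univ.filter fun ω : F × F × F => ω.1 * u1 + ω.2.1 * w1 + ω.2.2 = k1 ∧
      ω.1 * u2 + ω.2.1 * w2 + ω.2.2 = k2).card ≤ Fintype.card F := by
  by_cases hu : u1 = u2
  · subst hu
    refine card_le_card_of_injOn (fun ω => ω.1) (by simp) ?_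
    rintro ⟨a, b, c⟩ h ⟨a', b', c'⟩ h' e
    simp only [coe_filter, mem_univ, true_and, Set.mem_setOf_eq] at h h' e
    subst e
    have hw : w1 - w2 ≠ 0 := fun e => hk (by linear_combination h.2 - h.1 + b * e)
    have : b = b' := mul_right_cancel₀ hw (by linear_combination h.1 - h.2 - h'.1 + h'.2)
    subst this
    exact Prod.ext rfl (Prod.ext rfl (by linear_combination h.1 - h'.1))
  · refine card_le_card_of_injOn (fun ω => ω.2.1) (by simp) ?_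
    rintro ⟨a, b, c⟩ h ⟨a', b', c'⟩ h' e
    simp only [coe_filter, mem_univ, true_and, Set.mem_setOf_eq] at h h' e
    subst e
    have : a = a' := mul_right_cancel₀ (sub_ne_zero.mpr hu)
      (by linear_combination h.1 - h.2 - h'.1 + h'.2)
    subst this
    exact Prod.ext rfl (Prod.ext rfl (by linear_combination h.1 - h'.1))

lemma core {a1 a2 x0 y0 b1 b2 : ℤ} (hx : (x0 : ZMod p) = 0) (hf : (a1 : ZMod p) * a2 ≠ 0)
    (hb : (b1 : ZMod p) * b2 = a1 * a2) (hne : ¬ (b1 = a1 ∧ b2 = a2))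
    (hd : (x0 - a1) * (b2 - a2) - (y0 - a2) * (b1 - a1) = 0) :
    a2 - y0 = 0 ∨ ∃ m : ℤ, m ≠ 0 ∧ (m = b2 - a2 ∧ (m : ZMod p) = 0 ∨
      m = b2 - y0 ∧ (m : ZMod p) = -a2) ∧ (a2 - y0) ∣ (a1 - x0) * m := by
  by_cases h : (b2 : ZMod p) = a2
  · by_cases e : b2 = a2
    · left
      have : (a2 - y0) * (b1 - a1) = 0 := by rw [e] at hd; linear_combination hd
      exact (mul_eq_zero.mp this).resolve_right fun e' => hne ⟨by omega, e⟩
    · exact Or.inr ⟨b2 - a2, by omega, Or.inl ⟨rfl, by push_cast; rw [h, sub_self]⟩,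
        b1 - a1, by linear_combination -hd⟩
  · have hd' := congrArg (Int.cast : ℤ → ZMod p) hd
    push_cast at hd'
    rw [hx] at hd'
    have e : ((b2 - y0 : ℤ) : ZMod p) = -a2 := by
      push_cast
      refine mul_left_cancel₀ (mul_ne_zero (left_ne_zero_of_mul hf) (sub_ne_zero.mpr h)) ?_
      linear_combination (-(b2 : ZMod p)) * hd' + ((a2 : ZMod p) - y0) * hb
    refine Or.inr ⟨b2 - y0, fun e' => ?_, Or.inr ⟨rfl, e⟩, b1 - x0, by linear_combination -hd⟩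
    rw [e'] at e
    exact right_ne_zero_of_mul hf (by simpa using e.symm)

lemma deg {C D : ℕ} (hD : ∀ m : ℕ, m ≠ 0 → m ≤ (2 * C * p) ^ 2 → m.divisors.card ≤ D)
    (Z : Finset P) {a1 a2 : ℤ} (h1 : |a1| ≤ C * p) (h0 : (a1 : ZMod p) ≠ 0)
    (h : ∀ z ∈ Z, |z.1| ≤ C * p ∧ (z.1 : ZMod p) = 0 ∧ (a2 - z.2 = 0 ∨ ∃ m : ℤ, m ≠ 0 ∧
      |m| ≤ (2 * C : ℕ) * p ∧ ((m : ZMod p) = 0 ∨ (m : ZMod p) = -a2) ∧
      (a2 - z.2) ∣ (a1 - z.1) * m)) :
    Z.card ≤ 8 * (2 * C + 1) ^ 2 * (D + 1) := by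
  have c1 : (Z.image Prod.fst).card ≤ 2 * C + 1 := card_res (p := p) C _ 0 fun m hm => by
    obtain ⟨z, hz, rfl⟩ := mem_image.mp hm
    exact ⟨(h z hz).1, (h z hz).2.1⟩
  let I := Icc (-((2 * C : ℕ) * p : ℤ)) ((2 * C : ℕ) * p)
  let Ms := (I.filter fun m : ℤ => m ≠ 0 ∧ (m : ZMod p) = 0) ∪
    (I.filter fun m : ℤ => m ≠ 0 ∧ (m : ZMod p) = -a2)
  have c2 : Ms.card ≤ 2 * (2 * (2 * C) + 1) := by
    have k : ∀ t : ZMod p, (I.filter fun m : ℤ => m ≠ 0 ∧ (m : ZMod p) = t).card ≤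
        2 * (2 * C) + 1 := fun t => card_res (2 * C) _ t fun m hm =>
      ⟨abs_le.mpr (mem_Icc.mp (mem_filter.mp hm).1), (mem_filter.mp hm).2.2⟩
    have := k 0
    have := k (-a2)
    have := card_union_le (I.filter fun m : ℤ => m ≠ 0 ∧ (m : ZMod p) = 0)
      (I.filter fun m : ℤ => m ≠ 0 ∧ (m : ZMod p) = -a2)
    simp only [Ms]
    omega
  have c3 := card_le_mul_card_image (f := Prod.fst) Z (1 + Ms.card * (2 * D)) (fun x0 hx0 => by
    obtain ⟨z0, hz0, rfl⟩ := mem_image.mp hx0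
    set W := Z.filter fun z => z.1 = z0.1
    let Ys := W.image fun z => a2 - z.2
    have e : W.card = Ys.card := (card_image_of_injOn fun z hz z' hz' e =>
      Prod.ext ((mem_filter.mp hz).2.trans (mem_filter.mp hz').2.symm)
        (by have e' : a2 - z.2 = a2 - z'.2 := e; omega)).symm
    have s : Ys ⊆ insert 0 (Ms.biUnion fun m => Ys.filter (· ∣ (a1 - z0.1) * m)) := fun y hy => by
      obtain ⟨z, hz, rfl⟩ := mem_image.mp hy
      obtain ⟨hz1, hz2⟩ := mem_filter.mp hz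
      rcases (h z hz1).2.2 with e | ⟨m, m0, m1, m2, m3⟩
      · rw [e]; exact mem_insert_self _ _
      · refine mem_insert_of_mem (mem_biUnion.mpr ⟨m, ?_, mem_filter.mpr ⟨hy, hz2 ▸ m3⟩⟩)
        have mI : m ∈ I := mem_Icc.mpr (abs_le.mp m1)
        rcases m2 with m2 | m2
        · exact mem_union_left _ (mem_filter.mpr ⟨mI, m0, m2⟩)
        · exact mem_union_right _ (mem_filter.mpr ⟨mI, m0, m2⟩)
    have s2 := card_biUnion_le_card_mul Ms (fun m => Ys.filter (· ∣ (a1 - z0.1) * m)) (2 * D)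
      (fun m hm => by
        have hm' : m ∈ I ∧ m ≠ 0 := by
          rcases mem_union.mp hm with hm | hm <;>
            exact ⟨(mem_filter.mp hm).1, (mem_filter.mp hm).2.1⟩
        have n0 : a1 - z0.1 ≠ 0 := fun e => h0 (by rw [sub_eq_zero.mp e]; exact (h z0 hz0).2.1)
        have n1 := mul_ne_zero n0 hm'.2
        refine (card_dvd _ n1 fun y hy => (mem_filter.mp hy).2).trans
          (Nat.mul_le_mul_left _ (hD _ (Int.natAbs_ne_zero.mpr n1) ?_))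
        have b1 : |a1 - z0.1| ≤ 2 * C * p := by
          have := (h z0 hz0).1
          rw [abs_le] at *
          constructor <;> linarith
        have b2 : |m| ≤ 2 * C * p := by
          have := abs_le.mpr (mem_Icc.mp hm'.1)
          push_cast at this
          exact this
        zify
        rw [abs_mul, sq]
        exact mul_le_mul b1 b2 (abs_nonneg _) (by positivity))
    have := (card_le_card s).trans (card_insert_le _ _)
    omega)
  calc Z.card ≤ (1 + Ms.card * (2 * D)) * (Z.image Prod.fst).card := c3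
    _ ≤ (1 + 2 * (2 * (2 * C) + 1) * (2 * D)) * (2 * C + 1) := by gcongr
    _ ≤ (8 * (2 * C + 1) * (D + 1)) * (2 * C + 1) := by gcongr; nlinarith
    _ = _ := by ring

lemma triples {B D : ℕ} (hD : ∀ m : ℕ, m ≠ 0 → m ≤ (2 * B) ^ 2 → m.divisors.card ≤ D)
    (E : Finset (P × P × P)) (h : ∀ e ∈ E, (|e.1.1| ≤ B ∧ |e.1.2| ≤ B) ∧
      (|e.2.1.1| ≤ B ∧ |e.2.1.2| ≤ B) ∧ (|e.2.2.1| ≤ B ∧ |e.2.2.2| ≤ B) ∧ e.1 ≠ e.2.1 ∧
      e.1 ≠ e.2.2 ∧ det e.1 e.2.1 e.2.2 = 0) : E.card ≤ 2 * (D + 1) * (2 * B + 1) ^ 4 := by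
  let I := Icc (-B : ℤ) B
  let J := I ×ˢ I ×ˢ I ×ˢ I
  have cI : I.card = 2 * B + 1 := by simp only [I, Int.card_Icc]; omega
  have cJ : J.card = (2 * B + 1) ^ 4 := by simp only [J, card_product, cI]; ring
  have mJ : ∀ x y z w : ℤ, |x| ≤ B → |y| ≤ B → |z| ≤ B → |w| ≤ B → (x, y, z, w) ∈ J := by
    intro x y z w h1 h2 h3 h4
    simp only [J, I, mem_product, mem_Icc, ← abs_le]
    exact ⟨h1, h2, h3, h4⟩
  let E1 := E.filter fun e => (e.2.1.1 - e.1.1) * (e.2.2.2 - e.1.2) ≠ 0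
  let E2 := E.filter fun e => e.2.1.1 = e.1.1 ∧ e.2.2.1 = e.1.1
  let E3 := E.filter fun e => e.2.1.2 = e.1.2 ∧ e.2.2.2 = e.1.2
  have s : E ⊆ E1 ∪ E2 ∪ E3 := by
    rintro ⟨⟨a1, a2⟩, ⟨b1, b2⟩, ⟨c1, c2⟩⟩ he
    obtain ⟨-, -, -, n1, n2, hd⟩ := h _ he
    simp only [E1, E2, E3, mem_union, mem_filter, he, true_and]
    simp only [det, ne_eq, Prod.mk.injEq] at n1 n2 hd
    by_cases e : (b1 - a1) * (c2 - a2) = 0
    · rw [e, zero_sub, neg_eq_zero] at hd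
      rcases mul_eq_zero.mp e with e | e <;> rcases mul_eq_zero.mp hd with hd | hd <;> omega
    · exact Or.inl (Or.inl e)
  have c2 : E2.card ≤ J.card := by
    refine card_le_card_of_injOn (fun e => (e.1.1, e.1.2, e.2.1.2, e.2.2.2)) (fun e he => ?_) ?_
    · obtain ⟨h1, h2, h3, -⟩ := h e (mem_filter.mp he).1
      exact mJ _ _ _ _ h1.1 h1.2 h2.2 h3.2
    · rintro ⟨⟨a1, a2⟩, ⟨b1, b2⟩, ⟨c1, c2⟩⟩ he ⟨⟨a1', a2'⟩, ⟨b1', b2'⟩, ⟨c1', c2'⟩⟩ he' e
      have h1 := (mem_filter.mp he).2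
      have h2 := (mem_filter.mp he').2
      simp only [Prod.mk.injEq] at e h1 h2 ⊢
      omega
  have c3 : E3.card ≤ J.card := by
    refine card_le_card_of_injOn (fun e => (e.1.1, e.1.2, e.2.1.1, e.2.2.1)) (fun e he => ?_) ?_
    · obtain ⟨h1, h2, h3, -⟩ := h e (mem_filter.mp he).1
      exact mJ _ _ _ _ h1.1 h1.2 h2.1 h3.1
    · rintro ⟨⟨a1, a2⟩, ⟨b1, b2⟩, ⟨c1, c2⟩⟩ he ⟨⟨a1', a2'⟩, ⟨b1', b2'⟩, ⟨c1', c2'⟩⟩ he' e
      have h1 := (mem_filter.mp he).2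
      have h2 := (mem_filter.mp he').2
      simp only [Prod.mk.injEq] at e h1 h2 ⊢
      omega
  have c1 : E1.card ≤ 2 * D * J.card := by
    refine card_le_mul_card_image_of_maps_to
      (f := fun e => (e.1.1, e.1.2, e.2.1.1, e.2.2.2)) (fun e he => ?_) _ ?_
    · obtain ⟨h1, h2, h3, -⟩ := h e (mem_filter.mp he).1
      exact mJ _ _ _ _ h1.1 h1.2 h2.1 h3.2
    rintro ⟨x, y, z, w⟩ hj
    set W := E1.filter fun e => (e.1.1, e.1.2, e.2.1.1, e.2.2.2) = (x, y, z, w)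
    by_cases n0 : (z - x) * (w - y) = 0
    · have : W = ∅ := eq_empty_of_forall_notMem fun e he => by
        obtain ⟨h1, h2⟩ := mem_filter.mp he
        simp only [Prod.mk.injEq] at h2
        have := (mem_filter.mp h1).2
        rw [h2.1, h2.2.1, h2.2.2.1, h2.2.2.2] at this
        exact this n0
      simp [this]
    have k : ∀ e ∈ W, e.1.1 = x ∧ e.1.2 = y ∧ e.2.1.1 = z ∧ e.2.2.2 = w ∧
        (z - x) * (w - y) = (e.2.1.2 - y) * (e.2.2.1 - x) := fun e he => by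
      obtain ⟨h1, h2⟩ := mem_filter.mp he
      simp only [Prod.mk.injEq] at h2
      have := (h e (mem_filter.mp h1).1).2.2.2.2.2
      rw [det, h2.1, h2.2.1, h2.2.2.1, h2.2.2.2] at this
      exact ⟨h2.1, h2.2.1, h2.2.2.1, h2.2.2.2, by linarith⟩
    have e : W.card = (W.image fun e => e.2.1.2 - y).card := (card_image_of_injOn <| by
      rintro ⟨⟨a1, a2⟩, ⟨b1, b2⟩, ⟨c1, c2⟩⟩ he ⟨⟨a1', a2'⟩, ⟨b1', b2'⟩, ⟨c1', c2'⟩⟩ he' e
      obtain ⟨k1, k2, k3, k4, k5⟩ := k _ he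
      obtain ⟨l1, l2, l3, l4, l5⟩ := k _ he'
      simp only [Prod.mk.injEq] at *
      have n : b2 - y ≠ 0 := fun e' => n0 (by rw [k5, e', zero_mul])
      have := mul_left_cancel₀ n (k5.symm.trans (l5.trans (by rw [e])))
      omega).symm
    rw [e]
    refine (card_dvd _ n0 fun t ht => ?_).trans
      (Nat.mul_le_mul_left _ (hD _ (Int.natAbs_ne_zero.mpr n0) ?_))
    · obtain ⟨e, he, rfl⟩ := mem_image.mp ht
      exact ⟨_, (k e he).2.2.2.2⟩
    · simp only [J, I, mem_product, mem_Icc] at hj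
      have b1 : |z - x| ≤ 2 * B := abs_le.mpr ⟨by omega, by omega⟩
      have b2 : |w - y| ≤ 2 * B := abs_le.mpr ⟨by omega, by omega⟩
      zify
      rw [abs_mul, sq]
      exact mul_le_mul b1 b2 (abs_nonneg _) (by positivity)
  have := (card_le_card s).trans ((card_union_le _ _).trans
    (Nat.add_le_add_right (card_union_le _ _) _))
  rw [← cJ]
  nlinarith

/-- index of a multiple of `p` -/
def ix (p C : ℕ) (t : ℤ) : ℤ := t / p + C + 1

lemma ix_mem {C : ℕ} {t : ℤ} (h : |t| ≤ C * p) : ix p C t ∈ Icc (1 : ℤ) (2 * C + 1) := by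
  have := div_mem h
  rw [mem_Icc] at *
  unfold ix
  omega

lemma ix_eq (C : ℕ) {t : ℤ} (h : (t : ZMod p) = 0) : t = p * (ix p C t - C - 1) := by
  rw [ZMod.intCast_zmod_eq_zero_iff_dvd] at h
  rw [ix, show t / p + C + 1 - C - 1 = t / p by ring, Int.mul_ediv_cancel' h]

lemma small_eq {M i j : ℤ} (hp : M < p) (hi : i ∈ Icc 0 M) (hj : j ∈ Icc 0 M)
    (h : (i : ZMod p) = j) : i = j := by
  rw [mem_Icc] at hi hj
  rw [ZMod.intCast_eq_intCast_iff', Int.emod_eq_of_lt hi.1 (by omega),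
    Int.emod_eq_of_lt hj.1 (by omega)] at h
  exact h

lemma ix_ne {C : ℕ} (hp : 2 * (C : ℤ) + 1 < p) {t : ℤ} (h : |t| ≤ C * p) :
    (ix p C t : ZMod p) ≠ 0 := fun e => by
  have h1 := ix_mem h
  have := small_eq (i := ix p C t) (j := 0) hp (by rw [mem_Icc] at *; omega) (by simp; omega)
    (by simpa using e)
  rw [mem_Icc] at h1
  omega

lemma ix_inj {C : ℕ} (hp : 2 * (C : ℤ) + 1 < p) {s t : ℤ} (hs : |s| ≤ C * p) (ht : |t| ≤ C * p)
    (s0 : (s : ZMod p) = 0) (t0 : (t : ZMod p) = 0)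
    (e : (ix p C s : ZMod p) = ix p C t) : s = t := by
  have h1 := ix_mem hs
  have h2 := ix_mem ht
  have := small_eq (i := ix p C s) (j := ix p C t) hp (by rw [mem_Icc] at *; omega)
    (by rw [mem_Icc] at *; omega) e
  rw [ix_eq C s0, ix_eq C t0, this]

lemma rows1 {C : ℕ} (hp : 2 * (C : ℤ) + 1 < p) {x1 y1 x2 y2 x3 y3 : ℤ} (b1 : |y1| ≤ C * p)
    (b2 : |y2| ≤ C * p) (z1 : (y1 : ZMod p) = 0) (z2 : (y2 : ZMod p) = 0) (n1 : (x1 : ZMod p) ≠ 0)
    (e : (ix p C y1 : ZMod p) * x1 = ix p C y2 * x2) (ne : ¬ (x1 = x2 ∧ y1 = y2))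
    (hd : (x2 - x1) * (y3 - y1) - (y2 - y1) * (x3 - x1) = 0) :
    (y3 : ZMod p) = 0 ∧ ((x1 : ZMod p) = x2 → y3 = y1) := by
  have k : (x1 : ZMod p) = x2 → y3 = y1 := fun h => by
    rw [← h] at e
    have := ix_inj hp b1 b2 z1 z2 (mul_right_cancel₀ n1 e)
    subst this
    rw [sub_self, zero_mul, sub_zero] at hd
    rcases mul_eq_zero.mp hd with hd | hd <;> omega
  refine ⟨?_, k⟩
  by_cases h : (x1 : ZMod p) = x2
  · rw [k h, z1]
  · have hd' := congrArg (Int.cast : ℤ → ZMod p) hd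
    push_cast at hd'
    rw [z1, z2] at hd'
    refine mul_left_cancel₀ (sub_ne_zero.mpr (Ne.symm h)) ?_
    linear_combination hd'

lemma rows2 {C : ℕ} (hp : 2 * (C : ℤ) + 1 < p) {x1 y1 x2 y2 x3 y3 : ℤ} (b1 : |y1| ≤ C * p)
    (b2 : |y2| ≤ C * p) (b3 : |y3| ≤ C * p) (z1 : (y1 : ZMod p) = 0) (z2 : (y2 : ZMod p) = 0)
    (z3 : (y3 : ZMod p) = 0) (n1 : (x1 : ZMod p) ≠ 0)
    (e2 : (ix p C y1 : ZMod p) * x1 = ix p C y2 * x2)
    (e3 : (ix p C y1 : ZMod p) * x1 = ix p C y3 * x3) (n12 : ¬ (x1 = x2 ∧ y1 = y2))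
    (n13 : ¬ (x1 = x3 ∧ y1 = y3)) (n23 : ¬ (x2 = x3 ∧ y2 = y3))
    (hd : (x2 - x1) * (y3 - y1) - (y2 - y1) * (x3 - x1) = 0) :
    (x1 : ZMod p) = x2 ∧ (x1 : ZMod p) = x3 := by
  have i1 := ix_ne hp b1
  have i2 := ix_ne hp b2
  have n0 := mul_ne_zero i1 n1
  have hd' : (ix p C y2 - ix p C y1) * (x3 - x1) - (x2 - x1) * (ix p C y3 - ix p C y1) = 0 := by
    refine mul_left_cancel₀ (ppos (p := p)).ne' ?_
    linear_combination -hd - (x3 - x1) * ix_eq C z2 + (x3 - x2) * ix_eq C z1 +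
      (x2 - x1) * ix_eq C z3
  have hd'' := congrArg (Int.cast : ℤ → ZMod p) hd'
  push_cast at hd''
  rcases conicF hd'' n0 e2 e3 with h | h | h
  · have := (rows1 hp b1 b2 z1 z2 n1 e2 n12 hd).2 h.2
    rw [this] at e3
    exact ⟨h.2, mul_left_cancel₀ i1 e3⟩
  · have := (rows1 (x3 := x2) (y3 := y2) hp b1 b3 z1 z3 n1 e3 n13
      (by linear_combination -hd)).2 h.2
    rw [this] at e2
    exact ⟨mul_left_cancel₀ i1 e2, h.2⟩
  · have := (rows1 (x3 := x1) (y3 := y1) hp b2 b3 z2 z3 (right_ne_zero_of_mul (e2 ▸ n0))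
      (e2.symm.trans e3) n23 (by linear_combination hd)).2 h.2
    rw [this] at e2
    have := mul_left_cancel₀ i2 e2
    exact ⟨this, this.trans h.2⟩

end Pool.Agent.H.MP_1efb31_co
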