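import Pool.Agent.H.MP_1efb31_co.B

/-! Absorbing the two asymptotes: a set on which the hyperbolas `x y = k` mod `p` have no three
collinear points can be coloured with `p + o(p)` colours. -/

namespace Pool.Agent.H.MP_1efb31_co
open Finset

def fv (p : ℕ) (a : P) : ZMod p := (a.1 : ZMod p) * a.2
def cg (p : ℕ) (a b : P) : Prop := (a.1 : ZMod p) = b.1 ∧ (a.2 : ZMod p) = b.2
def uu (p C : ℕ) (a : P) : ZMod p := if (a.2 : ZMod p) = 0 then ix p C a.2 * a.1 else 0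
def ww (p C : ℕ) (a : P) : ZMod p := if (a.1 : ZMod p) = 0 then ix p C a.1 * a.2 else 0
def ph (p C : ℕ) (ω : ZMod p × ZMod p × ZMod p) (a : P) : ZMod p :=
  ω.1 * uu p C a + ω.2.1 * ww p C a + ω.2.2
def nb (p : ℕ) (R : Finset P) (a : P) : Finset P :=
  R.filter fun z => fv p z = 0 ∧ ∃ b ∈ R, b ≠ a ∧ fv p b = fv p a ∧ det a z b = 0

variable {p : ℕ} [Fact p.Prime]

lemma nb_card {C D : ℕ} (hD : ∀ m : ℕ, m ≠ 0 → m ≤ (2 * C * p) ^ 2 → m.divisors.card ≤ D)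
    {R : Finset P} (hb : ∀ a ∈ R, |a.1| ≤ C * p ∧ |a.2| ≤ C * p) {a : P} (ha : a ∈ R)
    (h0 : fv p a ≠ 0) : (nb p R a).card ≤ 16 * (2 * C + 1) ^ 2 * (D + 1) := by
  have bd : ∀ s t : ℤ, |s| ≤ C * p → |t| ≤ C * p → |s - t| ≤ (2 * C : ℕ) * p := fun s t h1 h2 => by
    push_cast
    rw [abs_le] at *
    constructor <;> linarith
  have c1 := deg hD ((nb p R a).filter fun z => (z.1 : ZMod p) = 0) (a1 := a.1) (a2 := a.2)
    (hb a ha).1 (left_ne_zero_of_mul h0) (fun z hz => by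
      obtain ⟨h1, h2⟩ := mem_filter.mp hz
      obtain ⟨h3, -, b, b1, b2, b3, b4⟩ := mem_filter.mp h1
      refine ⟨(hb z h3).1, h2, ?_⟩
      rcases core h2 h0 b3 (fun e => b2 (Prod.ext e.1 e.2)) b4 with e | ⟨m, m0, m1, m2⟩
      · exact Or.inl e
      · refine Or.inr ⟨m, m0, ?_, m1.imp And.right And.right, m2⟩
        rcases m1 with ⟨rfl, -⟩ | ⟨rfl, -⟩
        · exact bd _ _ (hb b b1).2 (hb a ha).2
        · exact bd _ _ (hb b b1).2 (hb z h3).2)
  have c2 := deg hD (((nb p R a).filter fun z => ¬ (z.1 : ZMod p) = 0).image Prod.swap)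
    (a1 := a.2) (a2 := a.1) (hb a ha).2 (right_ne_zero_of_mul h0) (fun z hz => by
      obtain ⟨z, hz', rfl⟩ := mem_image.mp hz
      obtain ⟨h1, h2⟩ := mem_filter.mp hz'
      obtain ⟨h3, h4, b, b1, b2, b3, b4⟩ := mem_filter.mp h1
      have h5 : (z.2 : ZMod p) = 0 := (mul_eq_zero.mp h4).resolve_left h2
      refine ⟨(hb z h3).2, h5, ?_⟩
      rcases core (a1 := a.2) (a2 := a.1) (y0 := z.1) (b1 := b.2) (b2 := b.1) h5
        (by rw [mul_comm]; exact h0) (by rw [mul_comm, mul_comm (a.2 : ZMod p)]; exact b3)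
        (fun e => b2 (Prod.ext e.2 e.1)) (by unfold det at b4; linear_combination -b4)
        with e | ⟨m, m0, m1, m2⟩
      · exact Or.inl e
      · refine Or.inr ⟨m, m0, ?_, m1.imp And.right And.right, m2⟩
        rcases m1 with ⟨rfl, -⟩ | ⟨rfl, -⟩
        · exact bd _ _ (hb b b1).1 (hb a ha).1
        · exact bd _ _ (hb b b1).1 (hb z h3).1)
  rw [card_image_of_injective _ Prod.swap_injective] at c2
  have := card_filter_add_card_filter_not (s := nb p R a) fun z => (z.1 : ZMod p) = 0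
  linarith

noncomputable def good (p M : ℕ) [Fact p.Prime] : Finset (ZMod p × ZMod p × ZMod p) :=
  univ.filter fun ω => ω.1 ≠ 0 ∧ ω.2.1 ≠ 0 ∧ ∀ x ∈ Icc (1 : ℤ) M ×ˢ Icc (1 : ℤ) M,
    ω.2.2 + x.1 * x.2 * ω.1 * ω.2.1 ≠ 0

lemma good_card {M : ℕ} (hp : 2 * (M ^ 2 + 2) ≤ p) : p ^ 3 ≤ 2 * (good p M).card := by
  have cu : (univ : Finset (ZMod p × ZMod p)).card = p ^ 2 := by simp [sq]
  let A1 : Finset (ZMod p × ZMod p × ZMod p) := univ.filter fun ω => ω.1 = 0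
  let A2 : Finset (ZMod p × ZMod p × ZMod p) := univ.filter fun ω => ω.2.1 = 0
  let A3 : Finset (ZMod p × ZMod p × ZMod p) := (Icc (1 : ℤ) M ×ˢ Icc (1 : ℤ) M).biUnion
    fun x => univ.filter fun ω => ω.2.2 + x.1 * x.2 * ω.1 * ω.2.1 = 0
  have c1 : A1.card ≤ p ^ 2 := cu ▸ card_le_card_of_injOn (fun ω => ω.2) (by simp) (by
    rintro ⟨a, b⟩ h ⟨a', b'⟩ h' e
    simp only [A1, coe_filter, mem_univ, true_and, Set.mem_setOf_eq] at h h' e
    exact Prod.ext (h.trans h'.symm) e)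
  have c2 : A2.card ≤ p ^ 2 := cu ▸ card_le_card_of_injOn (fun ω => (ω.1, ω.2.2)) (by simp) (by
    rintro ⟨a, b, c⟩ h ⟨a', b', c'⟩ h' e
    simp only [A2, coe_filter, mem_univ, true_and, Set.mem_setOf_eq, Prod.mk.injEq] at h h' e
    exact Prod.ext e.1 (Prod.ext (h.trans h'.symm) e.2))
  have c3 : A3.card ≤ _ * p ^ 2 := card_biUnion_le_card_mul _ _ _ fun x _ =>
    cu ▸ card_le_card_of_injOn (fun ω => (ω.1, ω.2.1)) (by simp) (by
      rintro ⟨a, b, c⟩ h ⟨a', b', c'⟩ h' e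
      simp only [coe_filter, mem_univ, true_and, Set.mem_setOf_eq, Prod.mk.injEq] at h h' e
      obtain ⟨rfl, rfl⟩ := e
      exact Prod.ext rfl (Prod.ext rfl (by linear_combination h - h')))
  have s : univ ⊆ good p M ∪ (A1 ∪ A2 ∪ A3) := fun ω _ => by
    simp only [good, A1, A2, A3, mem_union, mem_filter, mem_univ, true_and, mem_biUnion]
    by_contra h
    push Not at h
    obtain ⟨x, h1, h2⟩ := h.1 h.2.1.1 h.2.1.2
    exact h.2.2 x h1 h2
  have h1 := (card_le_card s).trans (card_union_le _ _)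
  have h2 := card_union_le (A1 ∪ A2) A3
  have h3 := card_union_le A1 A2
  simp only [card_product, Int.card_Icc, add_sub_cancel_right, Int.toNat_natCast] at c3
  simp only [card_univ, Fintype.card_prod, ZMod.card] at h1
  have h4 := Nat.mul_le_mul_right (p ^ 2) hp
  nlinarith

lemma main_col {C : ℕ} (hp : 2 * (C : ℤ) + 1 < p) {R : Finset P}
    (hb : ∀ a ∈ R, |a.1| ≤ C * p ∧ |a.2| ≤ C * p)
    (H1 : ∀ a ∈ R, ∀ b ∈ R, ∀ c ∈ R, a ≠ b → a ≠ c → b ≠ c → det a b c = 0 → fv p a ≠ 0 →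
      fv p a = fv p b → fv p a = fv p c → False)
    (H2 : ∀ a ∈ R, ∀ b ∈ R, ∀ c ∈ R, a ≠ b → a ≠ c → b ≠ c → det a b c = 0 → cg p a b →
      cg p a c → False) (ω : ZMod p × ZMod p × ZMod p) (w1 : ω.1 ≠ 0) (w2 : ω.2.1 ≠ 0)
    (R0 : Finset P) (hR : ∀ a ∈ R0, a ∈ R ∧ ¬ ((a.1 : ZMod p) = 0 ∧ (a.2 : ZMod p) = 0) ∧
      (fv p a ≠ 0 → (∀ z ∈ nb p R a, ph p C ω z ≠ fv p a) ∧ ∀ i ∈ Icc (1 : ℤ) (2 * C + 1),
        ∀ j ∈ Icc (1 : ℤ) (2 * C + 1), fv p a ≠ i * ω.1 * a.1 + j * ω.2.1 * a.2 + ω.2.2)) :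
    Col R0 p := by
  let g : P → ZMod p := fun a => if fv p a = 0 then ph p C ω a else fv p a
  let Q : P → P → P → Prop := fun a b c => a ∈ R0 ∧ b ∈ R0 ∧ c ∈ R0 ∧ a ≠ b ∧ a ≠ c ∧ b ≠ c ∧
    det a b c = 0 ∧ g a = g b ∧ g a = g c
  have s1 : ∀ {a b c}, Q a b c → Q b a c := fun ⟨h1, h2, h3, h4, h5, h6, h7, h8, h9⟩ =>
    ⟨h2, h1, h3, h4.symm, h6, h5, by unfold det at *; linear_combination -h7, h8.symm,
      h8.symm.trans h9⟩
  have s2 : ∀ {a b c}, Q a b c → Q a c b := fun ⟨h1, h2, h3, h4, h5, h6, h7, h8, h9⟩ =>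
    ⟨h1, h3, h2, h5, h4, h6.symm, by unfold det at *; linear_combination -h7, h9, h8⟩
  have gN : ∀ a, fv p a ≠ 0 → g a = fv p a := fun a h => if_neg h
  have gR : ∀ a : P, (a.2 : ZMod p) = 0 → (a.1 : ZMod p) ≠ 0 →
      g a = ω.1 * (ix p C a.2 * a.1) + ω.2.2 := fun a h h' => by
    simp [g, fv, ph, uu, ww, h, h']
  have gC : ∀ a : P, (a.1 : ZMod p) = 0 → (a.2 : ZMod p) ≠ 0 →
      g a = ω.2.1 * (ix p C a.1 * a.2) + ω.2.2 := fun a h h' => by
    simp [g, fv, ph, uu, ww, h, h']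
  have LNN : ∀ {a b c}, Q a b c → fv p a ≠ 0 → fv p b ≠ 0 → False := by
    rintro a b c ⟨h1, h2, h3, h4, h5, h6, h7, h8, h9⟩ na nb'
    rw [gN a na] at h8 h9
    rw [gN b nb'] at h8
    by_cases nc : fv p c = 0
    · refine ((hR a h1).2.2 na).1 c (mem_filter.mpr ⟨(hR c h3).1, nc, b, (hR b h2).1, h4.symm,
        h8.symm, by unfold det at *; linear_combination -h7⟩) ?_
      rw [h9]
      exact (if_pos nc).symm
    · rw [gN c nc] at h9
      exact H1 a (hR a h1).1 b (hR b h2).1 c (hR c h3).1 h4 h5 h6 h7 na h8 h9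
  have LRR : ∀ {a b c}, Q a b c → (a.2 : ZMod p) = 0 → (b.2 : ZMod p) = 0 → False := by
    rintro a b c ⟨h1, h2, h3, h4, h5, h6, h7, h8, h9⟩ za zb
    have na : (a.1 : ZMod p) ≠ 0 := fun e => (hR a h1).2.1 ⟨e, za⟩
    have nb' : (b.1 : ZMod p) ≠ 0 := fun e => (hR b h2).2.1 ⟨e, zb⟩
    have ba := (hb a (hR a h1).1).2
    have bb := (hb b (hR b h2).1).2
    rw [gR a za na] at h8 h9
    rw [gR b zb nb'] at h8
    have e2 := mul_left_cancel₀ w1 (add_right_cancel h8)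
    have zc := (rows1 hp ba bb za zb na e2 (fun e => h4 (Prod.ext e.1 e.2)) h7).1
    rw [gR c zc fun e => (hR c h3).2.1 ⟨e, zc⟩] at h9
    have := rows2 hp ba bb (hb c (hR c h3).1).2 za zb zc na e2
      (mul_left_cancel₀ w1 (add_right_cancel h9)) (fun e => h4 (Prod.ext e.1 e.2))
      (fun e => h5 (Prod.ext e.1 e.2)) (fun e => h6 (Prod.ext e.1 e.2)) h7
    exact H2 a (hR a h1).1 b (hR b h2).1 c (hR c h3).1 h4 h5 h6 h7 ⟨this.1, za.trans zb.symm⟩
      ⟨this.2, za.trans zc.symm⟩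
  have LCC : ∀ {a b c}, Q a b c → (a.1 : ZMod p) = 0 → (b.1 : ZMod p) = 0 → False := by
    rintro a b c ⟨h1, h2, h3, h4, h5, h6, h7, h8, h9⟩ za zb
    have na : (a.2 : ZMod p) ≠ 0 := fun e => (hR a h1).2.1 ⟨za, e⟩
    have nb' : (b.2 : ZMod p) ≠ 0 := fun e => (hR b h2).2.1 ⟨zb, e⟩
    have ba := (hb a (hR a h1).1).1
    have bb := (hb b (hR b h2).1).1
    rw [gC a za na] at h8 h9
    rw [gC b zb nb'] at h8
    have e2 := mul_left_cancel₀ w2 (add_right_cancel h8)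
    have h7' : (b.2 - a.2) * (c.1 - a.1) - (b.1 - a.1) * (c.2 - a.2) = 0 := by
      unfold det at h7; linear_combination -h7
    have zc := (rows1 hp ba bb za zb na e2 (fun e => h4 (Prod.ext e.2 e.1)) h7').1
    rw [gC c zc fun e => (hR c h3).2.1 ⟨zc, e⟩] at h9
    have := rows2 hp ba bb (hb c (hR c h3).1).1 za zb zc na e2
      (mul_left_cancel₀ w2 (add_right_cancel h9)) (fun e => h4 (Prod.ext e.2 e.1))
      (fun e => h5 (Prod.ext e.2 e.1)) (fun e => h6 (Prod.ext e.2 e.1)) h7'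
    exact H2 a (hR a h1).1 b (hR b h2).1 c (hR c h3).1 h4 h5 h6 h7 ⟨za.trans zb.symm, this.1⟩
      ⟨za.trans zc.symm, this.2⟩
  have LRC : ∀ {a b c}, Q a b c → fv p a ≠ 0 → (b.2 : ZMod p) = 0 → (c.1 : ZMod p) = 0 →
      False := by
    rintro a b c ⟨h1, h2, h3, h4, h5, h6, h7, h8, h9⟩ na zb zc
    have nb' : (b.1 : ZMod p) ≠ 0 := fun e => (hR b h2).2.1 ⟨e, zb⟩
    have nc : (c.2 : ZMod p) ≠ 0 := fun e => (hR c h3).2.1 ⟨zc, e⟩
    have bb := (hb b (hR b h2).1).2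
    have bc := (hb c (hR c h3).1).1
    rw [gN a na] at h8 h9
    rw [gR b zb nb'] at h8
    rw [gC c zc nc] at h9
    refine ((hR a h1).2.2 na).2 _ (ix_mem bb) _ (ix_mem bc) ?_
    have hd := congrArg (Int.cast : ℤ → ZMod p) h7
    unfold det at hd
    push_cast at hd
    rw [zb, zc] at hd
    have n0 : fv p a - ω.2.2 ≠ 0 := by
      rw [h8, add_sub_cancel_right]
      exact mul_ne_zero w1 (mul_ne_zero (ix_ne hp bb) nb')
    refine mul_left_cancel₀ n0 ?_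
    linear_combination (fv p a - ω.2.2 - ix p C c.1 * ω.2.1 * a.2) * h8 +
      (ω.1 * ix p C b.2 * (b.1 - a.1)) * h9 + (ω.1 * ω.2.1 * ix p C b.2 * ix p C c.1) * hd
  refine ⟨fun a => (g a).val, fun a _ => ZMod.val_lt _,
    fun a ha b hb c hc ab ac bc hd e1 e2 => ?_⟩
  have q1 : Q a b c := ⟨ha, hb, hc, ab, ac, bc, hd, ZMod.val_injective p e1,
    ZMod.val_injective p e2⟩
  have ty : ∀ a : P, fv p a ≠ 0 ∨ (a.1 : ZMod p) = 0 ∨ (a.2 : ZMod p) = 0 := fun a => by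
    by_cases h : fv p a = 0
    · exact Or.inr (mul_eq_zero.mp h)
    · exact Or.inl h
  have q2 := s2 q1
  have q3 := s1 q1
  have q4 := s2 q3
  have q5 := s1 q2
  have q6 := s2 q5
  rcases ty a with ta | ta | ta <;> rcases ty b with tb | tb | tb <;>
    rcases ty c with tc | tc | tc <;> first
    | exact LNN q1 ta tb | exact LNN q2 ta tc | exact LNN q4 tb tc
    | exact LRR q1 ta tb | exact LRR q2 ta tc | exact LRR q4 tb tc
    | exact LCC q1 ta tb | exact LCC q2 ta tc | exact LCC q4 tb tc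
    | exact LRC q1 ta tb tc | exact LRC q2 ta tc tb | exact LRC q3 tb ta tc
    | exact LRC q4 tb tc ta | exact LRC q5 tc ta tb | exact LRC q6 tc tb ta

theorem absorb0 {C D K : ℕ} (hK : 0 < K) (hp : 2 * ((2 * C + 1) ^ 2 + 2) ≤ p)
    (hD : ∀ m : ℕ, m ≠ 0 → m ≤ (2 * C * p) ^ 2 → m.divisors.card ≤ D) {R : Finset P}
    (hb : ∀ a ∈ R, |a.1| ≤ C * p ∧ |a.2| ≤ C * p)
    (H1 : ∀ a ∈ R, ∀ b ∈ R, ∀ c ∈ R, a ≠ b → a ≠ c → b ≠ c → det a b c = 0 → fv p a ≠ 0 →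
      fv p a = fv p b → fv p a = fv p c → False)
    (H2 : ∀ a ∈ R, ∀ b ∈ R, ∀ c ∈ R, a ≠ b → a ≠ c → b ≠ c → det a b c = 0 → cg p a b →
      cg p a c → False) :
    ∃ m, m * K ^ 2 ≤ 1024 * (2 * C + 1) ^ 8 * (D + 1) ^ 3 * p ^ 2 ∧
      Col R (p + (K + m) + (2 * C + 1) ^ 4 + (2 * C + 1) ^ 2) := by
  have p0 : 0 < p := (Fact.out : p.Prime).pos
  have hp' : 2 * (C : ℤ) + 1 < p := by
    have : 2 * C + 1 < p := by nlinarith
    exact_mod_cast this
  have gc := good_card hp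
  have gne : (good p (2 * C + 1)).Nonempty := card_pos.mp (by
    have := pow_pos p0 3
    omega)
  let E := (R ×ˢ R ×ˢ R).filter fun e => e.1 ≠ e.2.1 ∧ e.1 ≠ e.2.2 ∧ det e.1 e.2.1 e.2.2 = 0 ∧
    fv p e.1 ≠ fv p e.2.1 ∧ fv p e.1 ≠ 0 ∧ fv p e.2.1 ≠ 0
  have cE : E.card ≤ 2 * (D + 1) * (2 * (C * p) + 1) ^ 4 := triples (B := C * p)
    (by simpa only [mul_assoc] using hD) E fun e he => by
      obtain ⟨h1, h2⟩ := mem_filter.mp he
      simp only [mem_product] at h1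
      push_cast
      exact ⟨hb _ h1.1, hb _ h1.2.1, hb _ h1.2.2, h2.1, h2.2.1, h2.2.2.1⟩
  obtain ⟨ω, hω, hT⟩ := avg _ gne E (fun ω e => (∃ z ∈ nb p R e.1, ph p C ω z = fv p e.1) ∧
    ∃ z ∈ nb p R e.2.1, ph p C ω z = fv p e.2.1) 1 ((16 * (2 * C + 1) ^ 2 * (D + 1)) ^ 2 * p)
    (fun e he => by
      obtain ⟨h1, -, -, -, h2, h3, h4⟩ := mem_filter.mp he
      simp only [mem_product] at h1
      have := card_biUnion_le_card_mul (nb p R e.1 ×ˢ nb p R e.2.1) (fun z => univ.filter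
        fun ω => ph p C ω z.1 = fv p e.1 ∧ ph p C ω z.2 = fv p e.2.1) p (fun z _ => by
          have := pair_count (uu p C z.1) (ww p C z.1) (uu p C z.2) (ww p C z.2) h2
          rwa [ZMod.card] at this)
      rw [mul_one]
      refine (card_le_card fun ω hω => ?_).trans (this.trans ?_)
      · obtain ⟨-, ⟨z, z1, z2⟩, z', z3, z4⟩ := mem_filter.mp hω
        exact mem_biUnion.mpr ⟨(z, z'), mem_product.mpr ⟨z1, z3⟩,
          mem_filter.mpr ⟨mem_univ _, z2, z4⟩⟩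
      · rw [card_product, sq]
        exact Nat.mul_le_mul_right _ (Nat.mul_le_mul (nb_card hD hb h1.1 h3)
          (nb_card hD hb h1.2.1 h4)))
  set T := E.filter fun e => (∃ z ∈ nb p R e.1, ph p C ω z = fv p e.1) ∧
    ∃ z ∈ nb p R e.2.1, ph p C ω z = fv p e.2.1
  have hT' : T.card ≤ 1024 * (2 * C + 1) ^ 8 * (D + 1) ^ 3 * p ^ 2 := by
    refine Nat.le_of_mul_le_mul_right ?_ (pow_pos p0 3)
    have h1 : 2 * (C * p) + 1 ≤ (2 * C + 1) * p := by nlinarith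
    calc T.card * p ^ 3 ≤ T.card * (2 * (good p (2 * C + 1)).card) := by gcongr
      _ = 2 * (T.card * 1 * (good p (2 * C + 1)).card) := by ring
      _ ≤ 2 * ((2 * (D + 1) * ((2 * C + 1) * p) ^ 4) *
          ((16 * (2 * C + 1) ^ 2 * (D + 1)) ^ 2 * p)) := by
        refine Nat.mul_le_mul_left _ (hT.trans (Nat.mul_le_mul_right _ (cE.trans ?_)))
        gcongr
      _ = _ := by ring
  obtain ⟨w1, w2, w3⟩ := (mem_filter.mp hω).2
  let S := R.filter fun a => fv p a ≠ 0 ∧ ∃ z ∈ nb p R a, ph p C ω z = fv p a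
  obtain ⟨m, m1, m2⟩ := rc S T K hK fun a ha b hb c hc ab ac bc hd => by
    obtain ⟨a1, a2, a3⟩ := mem_filter.mp ha
    obtain ⟨b1, b2, b3⟩ := mem_filter.mp hb
    obtain ⟨c1, c2, c3⟩ := mem_filter.mp hc
    by_cases e : fv p a = fv p b
    · refine Or.inr (mem_filter.mpr ⟨mem_filter.mpr ⟨by simp [a1, b1, c1], ac, ab, ?_,
        H1 a a1 b b1 c c1 ab ac bc hd a2 e, a2, c2⟩, a3, c3⟩)
      unfold det at *
      linear_combination -hd
    · exact Or.inl (mem_filter.mpr ⟨mem_filter.mpr ⟨by simp [a1, b1, c1], ab, ac, hd,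
        e, a2, b2⟩, a3, b3⟩)
  refine ⟨m, m1.trans hT', ?_⟩
  let I1 := Icc (1 : ℤ) ((2 * C + 1 : ℕ) : ℤ)
  let I2 := Icc (-C : ℤ) C
  let S' := ((I1 ×ˢ I1) ×ˢ (I2 ×ˢ I2)).biUnion fun x => R.filter fun a =>
    fv p a = x.1.1 * ω.1 * a.1 + x.1.2 * ω.2.1 * a.2 + ω.2.2 ∧ a.1 / p = x.2.1 ∧ a.2 / p = x.2.2
  have cS' : Col S' ((2 * C + 1) ^ 4) := by
    refine (col_biUnion _ _ fun x hx => col_one fun a ha b hb c hc ab ac bc hd => ?_).le ?_
    · obtain ⟨-, a1, a2, a3⟩ := mem_filter.mp ha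
      obtain ⟨-, b1, b2, b3⟩ := mem_filter.mp hb
      obtain ⟨-, c1, c2, c3⟩ := mem_filter.mp hc
      have hd' := congrArg (Int.cast : ℤ → ZMod p) hd
      unfold det at hd'
      unfold fv at a1 b1 c1
      push_cast at hd'
      have n0 := w3 x.1 (mem_product.mp hx).1
      rcases conicF (x1 := (a.1 : ZMod p) - x.1.2 * ω.2.1) (y1 := a.2 - x.1.1 * ω.1)
        (x2 := b.1 - x.1.2 * ω.2.1) (y2 := b.2 - x.1.1 * ω.1) (x3 := c.1 - x.1.2 * ω.2.1)
        (y3 := c.2 - x.1.1 * ω.1) (by linear_combination hd')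
        (fun e => n0 (by linear_combination e - a1)) (by linear_combination a1 - b1)
        (by linear_combination a1 - c1) with h | h | h
      · exact ab (Prod.ext (eq_of_cast_div (sub_left_injective h.1) (a2.trans b2.symm))
          (eq_of_cast_div (sub_left_injective h.2) (a3.trans b3.symm)))
      · exact ac (Prod.ext (eq_of_cast_div (sub_left_injective h.1) (a2.trans c2.symm))
          (eq_of_cast_div (sub_left_injective h.2) (a3.trans c3.symm)))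
      · exact bc (Prod.ext (eq_of_cast_div (sub_left_injective h.1) (b2.trans c2.symm))
          (eq_of_cast_div (sub_left_injective h.2) (b3.trans c3.symm)))
    · have c1 : I1.card = 2 * C + 1 := by simp only [I1, Int.card_Icc]; omega
      have c2 : I2.card = 2 * C + 1 := by simp only [I2, Int.card_Icc]; omega
      simp only [card_product, c1, c2]
      exact le_of_eq (by ring)
  let Z := R.filter fun a => (a.1 : ZMod p) = 0 ∧ (a.2 : ZMod p) = 0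
  have cZ : Col Z ((2 * C + 1) ^ 2) := by
    refine (col_card Z).le ((card_le_card subset_product).trans ?_)
    rw [card_product, sq]
    refine Nat.mul_le_mul (card_res (p := p) C _ 0 fun t ht => ?_)
      (card_res (p := p) C _ 0 fun t ht => ?_)
    · obtain ⟨z, hz, rfl⟩ := mem_image.mp ht
      exact ⟨(hb z (mem_filter.mp hz).1).1, (mem_filter.mp hz).2.1⟩
    · obtain ⟨z, hz, rfl⟩ := mem_image.mp ht
      exact ⟨(hb z (mem_filter.mp hz).1).2, (mem_filter.mp hz).2.2⟩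
  have c0 := main_col hp' hb H1 H2 ω w1 w2 (R.filter fun a => a ∉ S ∧ a ∉ S' ∧ a ∉ Z)
    fun a ha => by
      obtain ⟨a1, a2, a3, a4⟩ := mem_filter.mp ha
      refine ⟨a1, fun e => a4 (mem_filter.mpr ⟨a1, e⟩), fun n => ⟨fun z hz e =>
        a2 (mem_filter.mpr ⟨a1, n, z, hz, e⟩), fun i hi j hj e => a3 (mem_biUnion.mpr
          ⟨((i, j), (a.1 / p, a.2 / p)), ?_, mem_filter.mpr ⟨a1, e, rfl, rfl⟩⟩)⟩⟩
      exact mem_product.mpr ⟨mem_product.mpr ⟨by simpa [I1] using hi, by simpa [I1] using hj⟩,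
        mem_product.mpr ⟨div_mem (hb a a1).1, div_mem (hb a a1).2⟩⟩
  refine (((c0.union m2).union cS').union cZ).mono fun a ha => ?_
  simp only [mem_union, mem_filter (s := R) (a := a) (p := fun a => a ∉ S ∧ a ∉ S' ∧ a ∉ Z)]
  tauto

end Pool.Agent.H.MP_1efb31_co
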