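import Pool.Agent.H.MP_1efb31_co.C

/-! The region left over by the first family of hyperbolas, and its linear geometry. -/

namespace Pool.Agent.H.MP_1efb31_co

def inA (l d x y : ℤ) : Prop := -d - l ≤ x ∧ x ≤ -d + l ∧ -l ≤ y ∧ y ≤ l
def vv (q l t : ℤ) : Prop := 1 ≤ t ∧ t ≤ 2 * l + 1 - q
def hh (q l d t : ℤ) : Prop := 2 * d - q ≤ t ∧ t ≤ 2 * d - 2 * q + 2 * l + 1
def tS (q l d x y : ℤ) : Prop :=
  -l ≤ x ∧ x ≤ l ∧ d - l ≤ y ∧ y ≤ d + l + 1 ∧ ¬ vv q l x ∧ ¬ hh q l d y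
def bSW (q l d x y : ℤ) : Prop := inA l d x y ∧
  (vv q l (-y) ∧ 2 * l + 1 - 2 * q ≤ x ∨ hh q l d (-x) ∧ 2 * d - 3 * q + 2 * l + 1 ≤ y)
def bNE (q l d x y : ℤ) : Prop := inA l d x y ∧
  (vv q l (-y) ∧ x < 2 * l + 1 - 2 * q ∨ hh q l d (-x) ∧ y < 2 * d - 3 * q + 2 * l + 1)
def bSE (q l d x y : ℤ) : Prop := inA l d x y ∧ (vv q l y ∧ x < -2 * d + 2 * q - 2 * l - 1 ∨
  hh q l d (x + (2 * d + 1)) ∧ 2 * d - 3 * q + 2 * l + 3 ≤ y)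
def bNW (q l d x y : ℤ) : Prop := inA l d x y ∧ (vv q l y ∧ -2 * d + 2 * q - 2 * l - 1 ≤ x ∨
  hh q l d (x + (2 * d + 1)) ∧ y < 2 * d - 3 * q + 2 * l + 3)

/-- membership in the leftover region, with the shift `(s, t)` recording the piece -/
def T (q l d s t x y : ℤ) : Prop :=
  s = 0 ∧ t = 0 ∧ tS q l d x y ∨ s = 1 ∧ t = 1 ∧ bSW q l d x y ∨
  s = -1 ∧ t = -1 ∧ bNE q l d (x - (2 * d + 1)) (y - (2 * d + 1)) ∨
  s = -1 ∧ t = 1 ∧ bSE q l d (x - (2 * d + 1)) y ∨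
  s = 1 ∧ t = -1 ∧ bNW q l d x (y - (2 * d + 1))

def Par (q l d : ℤ) : Prop :=
  q % 2 = 1 ∧ q ≤ 2 * l + 1 ∧ 2 * l + 2 ≤ d ∧ 6 * d + 6 * l + 7 ≤ 10 * q

variable {q l d s t s' t' s'' t'' x y x' y' i j i' j' k : ℤ}

lemma T.ty (h : T q l d s t x y) : s = 0 ∧ t = 0 ∨ s = 1 ∧ t = 1 ∨ s = -1 ∧ t = -1 ∨
    s = -1 ∧ t = 1 ∨ s = 1 ∧ t = -1 := by
  unfold T at h
  tauto

lemma T.box (hP : Par q l d) (h : T q l d s t x y) :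
    (-l ≤ x + q * s ∧ x + q * s ≤ l ∧ d - l ≤ y + q * t ∧ y + q * t ≤ d + l + 1) ∧
    (s = 0 ∧ t = 0 ∨ l - q < x + q * s ∧ x + q * s < q - l ∧ d + l + 1 - q < y + q * t ∧
      y + q * t < d - l + q) := by
  unfold Par at hP
  rcases h with ⟨rfl, rfl, h⟩ | ⟨rfl, rfl, h⟩ | ⟨rfl, rfl, h⟩ | ⟨rfl, rfl, h⟩ | ⟨rfl, rfl, h⟩ <;>
    simp only [tS, bSW, bNE, bSE, bNW, inA, vv, hh] at h <;> omega

lemma mul_bd {q k c : ℤ} (hq : 0 < q) (h1 : -(c * q) < q * k) (h2 : q * k < c * q) :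
    -c < k ∧ k < c := by
  constructor <;> nlinarith

lemma T.pair (hP : Par q l d) (h : T q l d s t x y) (h' : T q l d s' t' (x + q * i) (y + q * j)) :
    s = 0 ∧ t = 0 ∧ s' = 0 ∧ t' = 0 ∧ -1 ≤ i ∧ i ≤ 1 ∧ -1 ≤ j ∧ j ≤ 1 ∨
    i = s - s' ∧ j = t - t' ∧ (s = 0 ∧ t = 0 ∨ s' = 0 ∧ t' = 0 ∨ t = -1 ∧ t' = -1 ∨
      s = 1 ∧ s' = 1 ∨ s = s' ∧ t = t') := by
  obtain ⟨b1, b2⟩ := h.box hP
  obtain ⟨b3, b4⟩ := h'.box hP
  have hq : 0 < q := by unfold Par at hP; omega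
  have e1 : q * (i + s' - s) = q * i + q * s' - q * s := by ring
  have e2 : q * (j + t' - t) = q * j + q * t' - q * t := by ring
  by_cases z : s = 0 ∧ t = 0 ∧ s' = 0 ∧ t' = 0
  · left
    have := mul_bd (k := i + s' - s) (c := 2) hq (by unfold Par at hP; omega)
      (by unfold Par at hP; omega)
    have := mul_bd (k := j + t' - t) (c := 2) hq (by unfold Par at hP; omega)
      (by unfold Par at hP; omega)
    omega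
  right
  have k1 := mul_bd (k := i + s' - s) (c := 1) hq (by omega) (by omega)
  have k2 := mul_bd (k := j + t' - t) (c := 1) hq (by omega) (by omega)
  obtain rfl : i = s - s' := by omega
  obtain rfl : j = t - t' := by omega
  refine ⟨rfl, rfl, ?_⟩
  clear b1 b2 b3 b4 e1 e2 k1 k2 z
  unfold Par at hP
  rcases h with ⟨rfl, rfl, h⟩ | ⟨rfl, rfl, h⟩ | ⟨rfl, rfl, h⟩ | ⟨rfl, rfl, h⟩ | ⟨rfl, rfl, h⟩ <;>
    rcases h' with ⟨rfl, rfl, h'⟩ | ⟨rfl, rfl, h'⟩ | ⟨rfl, rfl, h'⟩ | ⟨rfl, rfl, h'⟩ |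
      ⟨rfl, rfl, h'⟩ <;> first
    | omega
    | (simp only [tS, bSW, bNE, bSE, bNW, inA, vv, hh] at h h'; omega)

lemma small3 (a1 : -1 ≤ i) (a2 : i ≤ 1) (a3 : -1 ≤ j) (a4 : j ≤ 1) (a5 : -1 ≤ i') (a6 : i' ≤ 1)
    (a7 : -1 ≤ j') (a8 : j' ≤ 1) (b : -1 ≤ i' - i ∧ i' - i ≤ 1 ∧ -1 ≤ j' - j ∧ j' - j ≤ 1)
    (n1 : ¬ (i = 0 ∧ j = 0)) (n2 : ¬ (i' = 0 ∧ j' = 0)) (n3 : ¬ (i = i' ∧ j = j'))
    (hd : i * j' = j * i') : False := by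
  interval_cases i <;> interval_cases j <;> omega

lemma G2 (hP : Par q l d) (h : T q l d s t x y) (h' : T q l d s' t' (x + q * i) (y + q * j))
    (h'' : T q l d s'' t'' (x + q * i') (y + q * j')) (n1 : ¬ (i = 0 ∧ j = 0))
    (n2 : ¬ (i' = 0 ∧ j' = 0)) (n3 : ¬ (i = i' ∧ j = j')) (hd : i * j' = j * i') : False := by
  have p1 := h.pair hP h'
  have p2 := h.pair hP h''
  have p3 := h'.pair (i := i' - i) (j := j' - j) (s' := s'') (t' := t'') hP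
    (by convert h'' using 1 <;> ring)
  rcases p1 with A | ⟨rfl, rfl, A⟩ <;> rcases p2 with B | ⟨rfl, rfl, B⟩
  · exact small3 (by omega) (by omega) (by omega) (by omega) (by omega) (by omega) (by omega)
      (by omega) (by omega) n1 n2 n3 hd
  · omega
  · omega
  · have t1 := h.ty
    have t2 := h'.ty
    have t3 := h''.ty
    clear h h' h''
    rcases t1 with ⟨rfl, rfl⟩ | ⟨rfl, rfl⟩ | ⟨rfl, rfl⟩ | ⟨rfl, rfl⟩ | ⟨rfl, rfl⟩ <;>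
    rcases t2 with ⟨rfl, rfl⟩ | ⟨rfl, rfl⟩ | ⟨rfl, rfl⟩ | ⟨rfl, rfl⟩ | ⟨rfl, rfl⟩ <;>
    rcases t3 with ⟨rfl, rfl⟩ | ⟨rfl, rfl⟩ | ⟨rfl, rfl⟩ | ⟨rfl, rfl⟩ | ⟨rfl, rfl⟩ <;> omega

lemma T.bd (hP : Par q l d) (h : T q l d s t x y) :
    -d - l ≤ x ∧ x ≤ d + l + 1 ∧ -l ≤ y ∧ y ≤ 2 * d + l + 1 := by
  unfold Par at hP
  rcases h with ⟨rfl, rfl, h⟩ | ⟨rfl, rfl, h⟩ | ⟨rfl, rfl, h⟩ | ⟨rfl, rfl, h⟩ | ⟨rfl, rfl, h⟩ <;>
    simp only [tS, bSW, bNE, bSE, bNW, inA, vv, hh] at h <;> omega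

lemma G3 (hP : Par q l d) (h : T q l d s t x y) (h' : T q l d s' t' (x + q * i) (y + q * 0))
    (n : i ≠ 0) (h'' : T q l d s'' t'' x' y) (e : x' + x = 1 + l + q * k) : False := by
  have p1 := h.pair hP h'
  have b1 := h.bd hP
  have b2 := h''.bd hP
  have t1 := h.ty
  have t2 := h'.ty
  unfold Par at hP
  obtain ⟨k1, k2⟩ := mul_bd (q := q) (k := k) (c := 5) (by omega) (by omega) (by omega)
  have c : s = 0 ∧ t = 0 ∧ s' = 0 ∧ t' = 0 ∧ (i = 1 ∨ i = -1) ∨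
      s = 1 ∧ t = -1 ∧ s' = -1 ∧ t' = -1 ∧ i = 2 ∨
      s = -1 ∧ t = -1 ∧ s' = 1 ∧ t' = -1 ∧ i = -2 := by omega
  clear p1 b1 b2 t1 t2
  rcases c with ⟨rfl, rfl, rfl, rfl, rfl | rfl⟩ | ⟨rfl, rfl, rfl, rfl, rfl⟩ |
      ⟨rfl, rfl, rfl, rfl, rfl⟩ <;>
    simp only [T, true_and, false_and, or_false, false_or, Int.reduceNeg, Int.reduceEq,
      and_false] at h h' <;>
    rcases h'' with ⟨rfl, rfl, h''⟩ | ⟨rfl, rfl, h''⟩ | ⟨rfl, rfl, h''⟩ | ⟨rfl, rfl, h''⟩ |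
      ⟨rfl, rfl, h''⟩ <;>
    simp only [tS, bSW, bNE, bSE, bNW, inA, vv, hh] at h h' h'' <;> first
    | omega
    | (interval_cases k <;> omega)

lemma G4 (hP : Par q l d) (h : T q l d s t x y) (h' : T q l d s' t' (x + q * 0) (y + q * j))
    (n : j ≠ 0) (h'' : T q l d s'' t'' x y') (e : y' + y = 3 * d + l + 1 + q * k) : False := by
  have p1 := h.pair hP h'
  have b1 := h.bd hP
  have b2 := h''.bd hP
  have t1 := h.ty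
  have t2 := h'.ty
  unfold Par at hP
  obtain ⟨k1, k2⟩ := mul_bd (q := q) (k := k) (c := 6) (by omega) (by omega) (by omega)
  have c : s = 0 ∧ t = 0 ∧ s' = 0 ∧ t' = 0 ∧ (j = 1 ∨ j = -1) ∨
      s = 1 ∧ t = 1 ∧ s' = 1 ∧ t' = -1 ∧ j = 2 ∨
      s = 1 ∧ t = -1 ∧ s' = 1 ∧ t' = 1 ∧ j = -2 := by omega
  clear p1 b1 b2 t1 t2
  rcases c with ⟨rfl, rfl, rfl, rfl, rfl | rfl⟩ | ⟨rfl, rfl, rfl, rfl, rfl⟩ |
      ⟨rfl, rfl, rfl, rfl, rfl⟩ <;>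
    simp only [T, true_and, false_and, or_false, false_or, Int.reduceNeg, Int.reduceEq,
      and_false] at h h' <;>
    rcases h'' with ⟨rfl, rfl, h''⟩ | ⟨rfl, rfl, h''⟩ | ⟨rfl, rfl, h''⟩ | ⟨rfl, rfl, h''⟩ |
      ⟨rfl, rfl, h''⟩ <;>
    simp only [tS, bSW, bNE, bSE, bNW, inA, vv, hh] at h h' h'' <;> first
    | omega
    | (interval_cases k <;> omega)

/-- the leftover region meets every bad diagonal triple -/
lemma hitD (h : inA l d x y) : (∃ s t, T q l d s t x y) ∨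
    (∃ s t, T q l d s t (x + (2 * d + 1)) (y + (2 * d + 1))) ∨ ∃ s t, T q l d s t (-y) (-x) := by
  by_cases c1 : bSW q l d x y
  · exact Or.inl ⟨1, 1, Or.inr (Or.inl ⟨rfl, rfl, c1⟩)⟩
  by_cases c2 : bNE q l d x y
  · exact Or.inr (Or.inl ⟨-1, -1, Or.inr (Or.inr (Or.inl ⟨rfl, rfl, by simpa using c2⟩))⟩)
  refine Or.inr (Or.inr ⟨0, 0, Or.inl ⟨rfl, rfl, ?_⟩⟩)
  simp only [tS, bSW, bNE, inA, vv, hh] at *
  omega

/-- the leftover region meets every bad antidiagonal triple -/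
lemma hitA (h : inA l d x y) : (∃ s t, T q l d s t (x + (2 * d + 1)) y) ∨
    (∃ s t, T q l d s t x (y + (2 * d + 1))) ∨ ∃ s t, T q l d s t y (x + (2 * d + 1)) := by
  by_cases c1 : bSE q l d x y
  · exact Or.inl ⟨-1, 1, Or.inr (Or.inr (Or.inr (Or.inl ⟨rfl, rfl, by simpa using c1⟩)))⟩
  by_cases c2 : bNW q l d x y
  · exact Or.inr (Or.inl ⟨1, -1, Or.inr (Or.inr (Or.inr (Or.inr ⟨rfl, rfl, by simpa using c2⟩)))⟩)
  refine Or.inr (Or.inr ⟨0, 0, Or.inl ⟨rfl, rfl, ?_⟩⟩)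
  simp only [tS, bSE, bNW, inA, vv, hh] at *
  omega

end Pool.Agent.H.MP_1efb31_co
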