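import Pool.Agent.H.MP_1efb31_co.D
import Pool.Agent.Lib.helper27.WPNT

/-! The two-level colouring of the square grid with (29/30 + o(1)) n colours. -/

namespace Pool.Agent.H.MP_1efb31_co
open Finset

theorem absorb (C : ℕ) {ε : ℝ} (hε : 0 < ε) : ∃ p0 : ℕ, ∀ (p : ℕ) [Fact p.Prime], p0 ≤ p →
    ∀ R : Finset P, (∀ a ∈ R, |a.1| ≤ C * p ∧ |a.2| ≤ C * p) →
    (∀ a ∈ R, ∀ b ∈ R, ∀ c ∈ R, a ≠ b → a ≠ c → b ≠ c → det a b c = 0 → fv p a ≠ 0 →
      fv p a = fv p b → fv p a = fv p c → False) →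
    (∀ a ∈ R, ∀ b ∈ R, ∀ c ∈ R, a ≠ b → a ≠ c → b ≠ c → det a b c = 0 → cg p a b →
      cg p a c → False) → ∃ K : ℕ, (K : ℝ) ≤ (1 + ε) * p ∧ Col R K := by
  obtain ⟨c, hc⟩ := dv_bound
  obtain ⟨k, hk⟩ := exists_nat_gt (3 / ε)
  have k0 : 0 < k := by
    have : (0 : ℝ) < k := lt_trans (by positivity) hk
    exact_mod_cast this
  obtain ⟨M, hM⟩ : ∃ M, M = 2 * C + 1 := ⟨_, rfl⟩
  obtain ⟨X, hX⟩ : ∃ X, X = k * (1024 * M ^ 8 * (4 * k ^ 2)) := ⟨_, rfl⟩
  obtain ⟨Y, hY⟩ : ∃ Y, Y = 256 * (c * ((2 * C) ^ 2 + 1)) := ⟨_, rfl⟩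
  refine ⟨2 * (M ^ 2 + 2) + k + k * (M ^ 4 + M ^ 2) + X ^ 8 * Y ^ 3, fun p _ hp R hb H1 H2 => ?_⟩
  have hp1 : 2 * (M ^ 2 + 2) ≤ p := le_trans (by rw [add_assoc, add_assoc]; simp) hp
  have hp2 : k ≤ p := le_trans (le_add_right (le_add_right le_add_self)) hp
  have hp3 : k * (M ^ 4 + M ^ 2) ≤ p := le_trans (le_add_right le_add_self) hp
  have hp4 : X ^ 8 * Y ^ 3 ≤ p := le_trans le_add_self hp
  clear hp
  have p0 : 0 < p := (Fact.out : p.Prime).pos
  obtain ⟨m0, hm0, hmax⟩ := exists_max_image (Icc 1 ((2 * C * p) ^ 2 + 1))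
    (fun m => m.divisors.card) ⟨1, by simp⟩
  rw [mem_Icc] at hm0
  obtain ⟨D, hD⟩ : ∃ D, D = m0.divisors.card := ⟨_, rfl⟩
  rw [← hD] at hmax
  have m00 : m0 ≠ 0 := Nat.one_le_iff_ne_zero.mp hm0.1
  have D1 : 0 < D := hD ▸ card_pos.mpr ⟨1, Nat.one_mem_divisors.mpr m00⟩
  have D2 : (D + 1) ^ 8 ≤ Y * p ^ 2 := by
    calc (D + 1) ^ 8 ≤ (2 * D) ^ 8 := Nat.pow_le_pow_left (by linarith) _
      _ = 256 * D ^ 8 := by ring
      _ ≤ 256 * (c * ((2 * C * p) ^ 2 + p ^ 2)) := by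
        rw [hD]
        exact Nat.mul_le_mul_left _ ((hc m0 m00).trans (Nat.mul_le_mul_left _
          (hm0.2.trans (Nat.add_le_add_left (pow_pos p0 2) _))))
      _ = _ := by rw [hY]; ring
  have D3 : X * (D + 1) ^ 3 ≤ p := by
    by_contra h
    have h1 := Nat.pow_lt_pow_left (not_le.mp h) (n := 8) (by norm_num)
    have h2 : (X * (D + 1) ^ 3) ^ 8 ≤ p * p ^ 6 := by
      calc _ = X ^ 8 * ((D + 1) ^ 8) ^ 3 := by ring
        _ ≤ X ^ 8 * (Y * p ^ 2) ^ 3 := by gcongr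
        _ = (X ^ 8 * Y ^ 3) * p ^ 6 := by ring
        _ ≤ _ := Nat.mul_le_mul_right _ hp4
    have h3 : p * p ^ 6 ≤ p ^ 8 := by
      rw [← pow_succ']
      exact Nat.pow_le_pow_right p0 (by norm_num)
    exact absurd (h1.trans_le (h2.trans h3)) (lt_irrefl _)
  have K0 : 0 < p / k := Nat.div_pos hp2 k0
  obtain ⟨m, m1, m2⟩ := absorb0 (C := C) (D := D) K0 (hM ▸ hp1)
    (fun m h1 h2 => hmax m (mem_Icc.mpr ⟨Nat.one_le_iff_ne_zero.mpr h1, Nat.le_succ_of_le h2⟩))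
    hb H1 H2
  rw [← hM] at m1 m2
  refine ⟨_, ?_, m2⟩
  have h1 : k * (p / k) ≤ p := Nat.mul_div_le p k
  have h2 : p ≤ 2 * k * (p / k) := by
    have := Nat.lt_mul_div_succ p k0
    have := Nat.mul_le_mul_left k K0
    linarith
  have h3 : m ≤ 1024 * M ^ 8 * (4 * k ^ 2) * (D + 1) ^ 3 := by
    refine Nat.le_of_mul_le_mul_right (m1.trans ?_) (pow_pos K0 2)
    calc _ ≤ 1024 * M ^ 8 * (D + 1) ^ 3 * (2 * k * (p / k)) ^ 2 := by gcongr
      _ = _ := by ring
  have h4 : k * m ≤ p := le_trans (by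
    calc k * m ≤ k * (1024 * M ^ 8 * (4 * k ^ 2) * (D + 1) ^ 3) := by gcongr
      _ = X * (D + 1) ^ 3 := by rw [hX]; ring) D3
  have h5 : k * (p / k + m + M ^ 4 + M ^ 2) ≤ 3 * p := by
    linarith
  have h6 : (k : ℝ) * ((p / k + m + M ^ 4 + M ^ 2 : ℕ) : ℝ) ≤ 3 * p := by exact_mod_cast h5
  have h7 : ((p / k + m + M ^ 4 + M ^ 2 : ℕ) : ℝ) ≤ ε * p := by
    have k1 : (0 : ℝ) < k := by exact_mod_cast k0
    rw [div_lt_iff₀ hε] at hk
    refine le_of_mul_le_mul_left (h6.trans ?_) k1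
    have : (0 : ℝ) ≤ p := by positivity
    nlinarith
  have e : p + (p / k + m) + M ^ 4 + M ^ 2 = p + (p / k + m + M ^ 4 + M ^ 2) := by ring
  rw [e, Nat.cast_add]
  linarith

lemma cast_ex {p : ℕ} {s t : ℤ} (h : (s : ZMod p) = t) : ∃ i, t = s + p * i := by
  obtain ⟨i, hi⟩ := (ZMod.intCast_eq_intCast_iff_dvd_sub s t p).mp h
  exact ⟨i, by linarith⟩

lemma H1_of {p : ℕ} [Fact p.Prime] {R : Finset P}
    (L : ∀ a ∈ R, ∀ b ∈ R, ∀ c ∈ R, a ≠ b → a ≠ c → b ≠ c → det a b c = 0 → fv p a ≠ 0 →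
      fv p a = fv p c → cg p a b → False) :
    ∀ a ∈ R, ∀ b ∈ R, ∀ c ∈ R, a ≠ b → a ≠ c → b ≠ c → det a b c = 0 → fv p a ≠ 0 →
      fv p a = fv p b → fv p a = fv p c → False := by
  intro a ha b hb c hc ab ac bc hd n e1 e2
  have hd' := congrArg (Int.cast : ℤ → ZMod p) hd
  unfold det at hd hd'
  push_cast at hd'
  rcases conicF hd' n e1 e2 with h | h | h
  · exact L a ha b hb c hc ab ac bc hd n e2 h
  · exact L a ha c hc b hb ac ab bc.symm (by unfold det; linear_combination -hd) n e1 h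
  · exact L b hb c hc a ha bc ab.symm ac.symm (by unfold det; linear_combination hd) (e1 ▸ n)
      e1.symm h

noncomputable def grid (l d : ℤ) : Finset P := Icc (-d - l) (d + l + 1) ×ˢ Icc (-l) (2 * d + l + 1)

lemma mem_grid {l d : ℤ} {a : P} : a ∈ grid l d ↔
    (-d - l ≤ a.1 ∧ a.1 ≤ d + l + 1) ∧ -l ≤ a.2 ∧ a.2 ≤ 2 * d + l + 1 := by
  simp [grid]

def rem (q l d : ℤ) (a : P) : Prop := ∃ s t, T q l d s t a.1 a.2

lemma rem_of {q l d x y x' y' : ℤ} (h : ∃ s t, T q l d s t x y) (e1 : x' = x) (e2 : y' = y) :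
    ∃ s t, T q l d s t x' y' := e1 ▸ e2 ▸ h

lemma lev1_H2 {p : ℕ} {q l d : ℤ} (hP : Par q l d) (hp : (p : ℤ) = 2 * d + 1) {a b c : P}
    (ha : a ∈ grid l d) (hb : b ∈ grid l d) (hc : c ∈ grid l d) (ab : a ≠ b) (ac : a ≠ c)
    (bc : b ≠ c) (hd : det a b c = 0) (e1 : cg p a b) (e2 : cg p a c) : False := by
  obtain ⟨a1, a2⟩ := a
  obtain ⟨b1, b2⟩ := b
  obtain ⟨c1, c2⟩ := c
  obtain ⟨i, rfl : b1 = a1 + p * i⟩ := cast_ex e1.1
  obtain ⟨j, rfl : b2 = a2 + p * j⟩ := cast_ex e1.2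
  obtain ⟨i', rfl : c1 = a1 + p * i'⟩ := cast_ex e2.1
  obtain ⟨j', rfl : c2 = a2 + p * j'⟩ := cast_ex e2.2
  simp only [mem_grid] at ha hb hc
  unfold Par at hP
  have p0 : (0 : ℤ) < p := by omega
  have k1 := mul_bd (k := i) (c := 2) p0 (by omega) (by omega)
  have k2 := mul_bd (k := j) (c := 2) p0 (by omega) (by omega)
  have k3 := mul_bd (k := i') (c := 2) p0 (by omega) (by omega)
  have k4 := mul_bd (k := j') (c := 2) p0 (by omega) (by omega)
  have k5 := mul_bd (k := i' - i) (c := 2) p0 (by rw [mul_sub]; omega) (by rw [mul_sub]; omega)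
  have k6 := mul_bd (k := j' - j) (c := 2) p0 (by rw [mul_sub]; omega) (by rw [mul_sub]; omega)
  refine small3 (i := i) (j := j) (i' := i') (j' := j') (by omega) (by omega) (by omega)
    (by omega) (by omega) (by omega) (by omega) (by omega) (by omega)
    (fun e => ab (by simp [e.1, e.2])) (fun e => ac (by simp [e.1, e.2]))
    (fun e => bc (by simp [e.1, e.2])) ?_
  refine mul_left_cancel₀ (pow_pos p0 2).ne' ?_
  unfold det at hd
  linear_combination hd

lemma lev1_L {p : ℕ} [Fact p.Prime] {q l d : ℤ} (hP : Par q l d) (hp : (p : ℤ) = 2 * d + 1)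
    {a b c : P} (ha : a ∈ grid l d) (hb : b ∈ grid l d) (hc : c ∈ grid l d) (ra : ¬ rem q l d a)
    (rb : ¬ rem q l d b) (rc : ¬ rem q l d c) (ab : a ≠ b) (ac : a ≠ c) (bc : b ≠ c)
    (hd : det a b c = 0) (n : fv p a ≠ 0) (e : fv p a = fv p c) (e1 : cg p a b) : False := by
  have h2 := lev1_H2 hP hp ha hb hc ab ac bc hd e1
  obtain ⟨a1, a2⟩ := a
  obtain ⟨b1, b2⟩ := b
  obtain ⟨c1, c2⟩ := c
  obtain ⟨i, rfl : b1 = a1 + p * i⟩ := cast_ex e1.1
  obtain ⟨j, rfl : b2 = a2 + p * j⟩ := cast_ex e1.2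
  simp only [mem_grid, rem, fv, cg] at ha hb hc ra rb rc n e h2
  unfold Par at hP
  have p0 : (0 : ℤ) < p := by omega
  obtain ⟨k1, k1'⟩ := mul_bd (k := i) (c := 2) p0 (by omega) (by omega)
  obtain ⟨k2, k2'⟩ := mul_bd (k := j) (c := 2) p0 (by omega) (by omega)
  have n0 : ¬ (i = 0 ∧ j = 0) := fun e => ab (by simp [e.1, e.2])
  have hd' : i * (c2 - a2) = j * (c1 - a1) := by
    refine mul_left_cancel₀ p0.ne' ?_
    unfold det at hd
    linear_combination hd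
  have hz : j ≠ 0 := fun h => by
    obtain rfl : c2 = a2 := by
      rw [h, zero_mul] at hd'
      rcases mul_eq_zero.mp hd' with h | h <;> omega
    exact h2 ⟨mul_right_cancel₀ (right_ne_zero_of_mul n) e, rfl⟩
  have vz : i ≠ 0 := fun h => by
    obtain rfl : c1 = a1 := by
      rw [h, zero_mul] at hd'
      rcases mul_eq_zero.mp hd'.symm with h | h <;> omega
    exact h2 ⟨rfl, mul_left_cancel₀ (left_ne_zero_of_mul n) e⟩
  have cs : i = 1 ∧ j = 1 ∨ i = -1 ∧ j = -1 ∨ i = -1 ∧ j = 1 ∨ i = 1 ∧ j = -1 := by omega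
  have dg : c2 - a2 = c1 - a1 → ∃ k, c1 = -a2 + p * k := fun h => by
    obtain rfl : c2 = a2 + (c1 - a1) := by omega
    push_cast at e h2
    have : ((c1 : ZMod p) - a1) * (c1 + a2) = 0 := by linear_combination -e
    rcases mul_eq_zero.mp this with h | h
    · exact (h2 ⟨by linear_combination -h, by linear_combination -h⟩).elim
    · exact cast_ex (by push_cast; linear_combination -h)
  have ad : c2 - a2 = -(c1 - a1) → ∃ k, c1 = a2 + p * k := fun h => by
    obtain rfl : c2 = a2 - (c1 - a1) := by omega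
    push_cast at e h2
    have : ((c1 : ZMod p) - a1) * (c1 - a2) = 0 := by linear_combination e
    rcases mul_eq_zero.mp this with h | h
    · exact (h2 ⟨by linear_combination -h, by linear_combination h⟩).elim
    · exact cast_ex (by linear_combination -h)
  rcases cs with ⟨rfl, rfl⟩ | ⟨rfl, rfl⟩ | ⟨rfl, rfl⟩ | ⟨rfl, rfl⟩
  · clear ad
    replace dg := dg (by clear dg; omega)
    obtain ⟨k, hk⟩ := dg
    have := mul_bd (k := k) (c := 1) p0 (by omega) (by omega)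
    obtain rfl : k = 0 := by omega
    rcases hitD (q := q) (l := l) (d := d) (x := a1) (y := a2) (by unfold inA; omega)
      with h | h | h
    · exact ra h
    · exact rb (rem_of h (by omega) (by omega))
    · exact rc (rem_of h (by omega) (by omega))
  · clear ad
    replace dg := dg (by clear dg; omega)
    obtain ⟨k, hk⟩ := dg
    have := mul_bd (k := k - 1) (c := 1) p0 (by rw [mul_sub]; omega) (by rw [mul_sub]; omega)
    obtain rfl : k = 1 := by omega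
    rcases hitD (q := q) (l := l) (d := d) (x := a1 - p) (y := a2 - p) (by unfold inA; omega)
      with h | h | h
    · exact rb (rem_of h (by omega) (by omega))
    · exact ra (rem_of h (by omega) (by omega))
    · exact rc (rem_of h (by omega) (by omega))
  · clear dg
    replace ad := ad (by clear ad; omega)
    obtain ⟨k, hk⟩ := ad
    have := mul_bd (k := k) (c := 1) p0 (by omega) (by omega)
    obtain rfl : k = 0 := by omega
    rcases hitA (q := q) (l := l) (d := d) (x := a1 - p) (y := a2) (by unfold inA; omega)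
      with h | h | h
    · exact ra (rem_of h (by omega) (by omega))
    · exact rb (rem_of h (by omega) (by omega))
    · exact rc (rem_of h (by omega) (by omega))
  · clear dg
    replace ad := ad (by clear ad; omega)
    obtain ⟨k, hk⟩ := ad
    have := mul_bd (k := k + 1) (c := 1) p0 (by rw [mul_add]; omega) (by rw [mul_add]; omega)
    obtain rfl : k = -1 := by omega
    rcases hitA (q := q) (l := l) (d := d) (x := a1) (y := a2 - p) (by unfold inA; omega)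
      with h | h | h
    · exact rb (rem_of h (by omega) (by omega))
    · exact ra (rem_of h (by omega) (by omega))
    · exact rc (rem_of h (by omega) (by omega))

lemma lev2_H2 {q : ℕ} {l d : ℤ} (hP : Par q l d) {a b c : P} (ra : rem q l d a)
    (rb : rem q l d b) (rc : rem q l d c) (ab : a ≠ b) (ac : a ≠ c) (bc : b ≠ c)
    (hd : det a b c = 0) (e1 : cg q a b) (e2 : cg q a c) : False := by
  obtain ⟨a1, a2⟩ := a
  obtain ⟨b1, b2⟩ := b
  obtain ⟨c1, c2⟩ := c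
  obtain ⟨i, rfl : b1 = a1 + q * i⟩ := cast_ex e1.1
  obtain ⟨j, rfl : b2 = a2 + q * j⟩ := cast_ex e1.2
  obtain ⟨i', rfl : c1 = a1 + q * i'⟩ := cast_ex e2.1
  obtain ⟨j', rfl : c2 = a2 + q * j'⟩ := cast_ex e2.2
  obtain ⟨s, t, h⟩ := ra
  obtain ⟨s', t', h'⟩ := rb
  obtain ⟨s'', t'', h''⟩ := rc
  have p0 : (0 : ℤ) < q := by unfold Par at hP; omega
  refine G2 hP h h' h'' (fun e => ab (by simp [e.1, e.2])) (fun e => ac (by simp [e.1, e.2]))
    (fun e => bc (by simp [e.1, e.2])) ?_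
  refine mul_left_cancel₀ (pow_pos p0 2).ne' ?_
  unfold det at hd
  linear_combination hd

def rot (u v : ℤ) (a : P) : P := ((a.1 - u) - (a.2 - v), (a.1 - u) + (a.2 - v))

lemma two_ne {q : ℕ} (h : (q : ℤ) % 2 = 1) : (2 : ZMod q) ≠ 0 ∨ q = 1 := by
  by_contra hh
  push Not at hh
  have := (ZMod.natCast_eq_zero_iff 2 q).mp (by exact_mod_cast hh.1)
  have := Nat.le_of_dvd (by norm_num) this
  have := hh.2
  omega

lemma cg_rot {q : ℕ} [Fact q.Prime] (h2 : (2 : ZMod q) ≠ 0) {u v : ℤ} {a b : P}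
    (h : cg q (rot u v a) (rot u v b)) : cg q a b := by
  obtain ⟨h1, h3⟩ := h
  simp only [rot] at h1 h3
  push_cast at h1 h3
  exact ⟨mul_left_cancel₀ h2 (by linear_combination h1 + h3),
    mul_left_cancel₀ h2 (by linear_combination h3 - h1)⟩

lemma lev2_L {q : ℕ} [Fact q.Prime] {l d u v : ℤ} (hP : Par q l d) (h2 : (2 : ZMod q) ≠ 0)
    (hu : 2 * u = 1 + l ∨ 2 * u = 1 + l + q) (hv : 2 * v = 3 * d + l + 1 ∨
      2 * v = 3 * d + l + 1 + q) {a b c : P} (ra : rem q l d a)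
    (rb : rem q l d b) (rc : rem q l d c) (ab : a ≠ b) (ac : a ≠ c) (bc : b ≠ c)
    (hd : det a b c = 0) (n : fv q (rot u v a) ≠ 0) (e : fv q (rot u v a) = fv q (rot u v c))
    (e1 : cg q a b) : False := by
  have h3 := lev2_H2 hP ra rb rc ab ac bc hd e1
  obtain ⟨a1, a2⟩ := a
  obtain ⟨b1, b2⟩ := b
  obtain ⟨c1, c2⟩ := c
  obtain ⟨i, rfl : b1 = a1 + q * i⟩ := cast_ex e1.1
  obtain ⟨j, rfl : b2 = a2 + q * j⟩ := cast_ex e1.2
  obtain ⟨s, t, h⟩ := ra
  obtain ⟨s', t', h'⟩ := rb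
  obtain ⟨s'', t'', h''⟩ := rc
  simp only [fv, cg, rot] at h h' h'' n e h3
  push_cast at n e
  have p0 : (0 : ℤ) < q := by unfold Par at hP; omega
  have n0 : ¬ (i = 0 ∧ j = 0) := fun e => ab (by simp [e.1, e.2])
  have hd' : i * (c2 - a2) = j * (c1 - a1) := by
    refine mul_left_cancel₀ p0.ne' ?_
    unfold det at hd
    linear_combination hd
  have p1 := h.pair hP h'
  have t1 := h.ty
  have t2 := h'.ty
  have cs : j = 0 ∨ i = 0 ∨ j = i ∨ j = -i := by omega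
  clear p1 t1 t2
  rcases cs with rfl | rfl | rfl | rfl
  · obtain rfl : c2 = a2 := by
      rw [zero_mul] at hd'
      rcases mul_eq_zero.mp hd' with h | h <;> omega
    have : ((c1 : ZMod q) - a1) * (c1 + a1 - 2 * u) = 0 := by linear_combination -e
    rcases mul_eq_zero.mp this with k | k
    · exact h3 ⟨by linear_combination -k, rfl⟩
    · obtain ⟨k, hk⟩ := cast_ex (p := q) (s := 2 * u) (t := c1 + a1)
        (by push_cast; linear_combination -k)
      rcases hu with hu | hu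
      · exact G3 (k := k) hP h h' (by omega) h'' (by omega)
      · exact G3 (k := k + 1) hP h h' (by omega) h'' (by rw [mul_add]; omega)
  · obtain rfl : c1 = a1 := by
      rw [zero_mul] at hd'
      rcases mul_eq_zero.mp hd'.symm with h | h <;> omega
    have : ((c2 : ZMod q) - a2) * (c2 + a2 - 2 * v) = 0 := by linear_combination e
    rcases mul_eq_zero.mp this with k | k
    · exact h3 ⟨rfl, by linear_combination -k⟩
    · obtain ⟨k, hk⟩ := cast_ex (p := q) (s := 2 * v) (t := c2 + a2)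
        (by push_cast; linear_combination -k)
      rcases hv with hv | hv
      · exact G4 (k := k) hP h h' (by omega) h'' (by omega)
      · exact G4 (k := k + 1) hP h h' (by omega) h'' (by rw [mul_add]; omega)
  · obtain rfl : c2 = a2 + (c1 - a1) := by
      have := mul_left_cancel₀ (show j ≠ 0 by omega) hd'
      omega
    push_cast at e h3
    have : (c1 : ZMod q) - a1 = 0 := mul_left_cancel₀ (mul_ne_zero (left_ne_zero_of_mul n) h2)
      (by linear_combination -e)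
    exact h3 ⟨by linear_combination -this, by linear_combination -this⟩
  · obtain rfl : c2 = a2 - (c1 - a1) := by
      have : c2 - a2 = -(c1 - a1) := mul_left_cancel₀ (show i ≠ 0 by omega)
        (by linear_combination hd')
      omega
    push_cast at e h3
    have : (c1 : ZMod q) - a1 = 0 := mul_left_cancel₀ (mul_ne_zero (right_ne_zero_of_mul n) h2)
      (by linear_combination -e)
    exact h3 ⟨by linear_combination -this, by linear_combination this⟩

theorem two_level {ε : ℝ} (hε : 0 < ε) : ∃ p0 : ℕ, ∀ p q : ℕ, p.Prime → q.Prime → p0 ≤ p →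
    p0 ≤ q → ∀ l d : ℤ, Par q l d → (p : ℤ) = 2 * d + 1 →
    ∃ K : ℕ, (K : ℝ) ≤ (1 + ε) * (p + q) ∧ Col (grid l d) K := by
  classical
  obtain ⟨p1, h1⟩ := absorb 2 hε
  obtain ⟨p2, h2⟩ := absorb 10 hε
  refine ⟨p1 + p2, fun p q pp qp hp hq l d hP hd => ?_⟩
  haveI := Fact.mk pp
  haveI := Fact.mk qp
  obtain ⟨K1, k1, c1⟩ := h1 p (by omega) ((grid l d).filter fun a => ¬ rem q l d a)
    (fun a ha => by
      have := mem_grid.mp (mem_filter.mp ha).1
      unfold Par at hP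
      simp only [abs_le]
      omega)
    (H1_of fun a ha b hb c hc => lev1_L hP hd (mem_filter.mp ha).1 (mem_filter.mp hb).1
      (mem_filter.mp hc).1 (mem_filter.mp ha).2 (mem_filter.mp hb).2 (mem_filter.mp hc).2)
    (fun a ha b hb c hc => lev1_H2 hP hd (mem_filter.mp ha).1 (mem_filter.mp hb).1
      (mem_filter.mp hc).1)
  have t2 : (2 : ZMod q) ≠ 0 := (two_ne hP.1).resolve_right qp.ne_one
  obtain ⟨u, hu⟩ : ∃ u : ℤ, 2 * u = 1 + l ∨ 2 * u = 1 + l + q :=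
    ⟨if (1 + l) % 2 = 0 then (1 + l) / 2 else (1 + l + q) / 2, by
      have := hP.1
      split_ifs <;> omega⟩
  obtain ⟨v, hv⟩ : ∃ v : ℤ, 2 * v = 3 * d + l + 1 ∨ 2 * v = 3 * d + l + 1 + q :=
    ⟨if (3 * d + l + 1) % 2 = 0 then (3 * d + l + 1) / 2 else (3 * d + l + 1 + q) / 2, by
      have := hP.1
      split_ifs <;> omega⟩
  have dr : ∀ a b c, det (rot u v a) (rot u v b) (rot u v c) = 2 * det a b c := fun a b c => by
    simp only [det, rot]; ring
  obtain ⟨K2, k2, c2⟩ := h2 q (by omega) (((grid l d).filter (rem q l d)).image (rot u v))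
    (fun a ha => by
      obtain ⟨a, ha', rfl⟩ := mem_image.mp ha
      have := mem_grid.mp (mem_filter.mp ha').1
      unfold Par at hP
      simp only [abs_le, rot]
      omega)
    (H1_of fun a ha b hb c hc => by
      obtain ⟨a, ha', rfl⟩ := mem_image.mp ha
      obtain ⟨b, hb', rfl⟩ := mem_image.mp hb
      obtain ⟨c, hc', rfl⟩ := mem_image.mp hc
      intro ab ac bc hd n e e1
      exact lev2_L hP t2 hu hv (mem_filter.mp ha').2 (mem_filter.mp hb').2 (mem_filter.mp hc').2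
        (ne_of_apply_ne _ ab) (ne_of_apply_ne _ ac) (ne_of_apply_ne _ bc)
        (by rw [dr] at hd; omega) n e (cg_rot t2 e1))
    (fun a ha b hb c hc => by
      obtain ⟨a, ha', rfl⟩ := mem_image.mp ha
      obtain ⟨b, hb', rfl⟩ := mem_image.mp hb
      obtain ⟨c, hc', rfl⟩ := mem_image.mp hc
      intro ab ac bc hd e1 e2
      exact lev2_H2 hP (mem_filter.mp ha').2 (mem_filter.mp hb').2 (mem_filter.mp hc').2
        (ne_of_apply_ne _ ab) (ne_of_apply_ne _ ac) (ne_of_apply_ne _ bc)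
        (by rw [dr] at hd; omega) (cg_rot t2 e1) (cg_rot t2 e2))
  have c2' := Col.pull (rot u v) (fun a b e => by
    simp only [rot, Prod.mk.injEq] at e
    exact Prod.ext (by omega) (by omega)) (fun a b c h => by rw [dr, h, mul_zero]) c2
  refine ⟨K1 + K2, by push_cast; linarith, (c1.union c2').mono fun a ha => ?_⟩
  by_cases h : rem q l d a
  · exact mem_union_right _ (mem_filter.mpr ⟨ha, h⟩)
  · exact mem_union_left _ (mem_filter.mpr ⟨ha, h⟩)

lemma prime_near {ε : ℝ} (hε : 0 < ε) :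
    ∃ N : ℕ, ∀ x : ℝ, N ≤ x → ∃ p : ℕ, p.Prime ∧ (1 - ε) * x - 1 ≤ p ∧ (p : ℝ) ≤ x := by
  obtain ⟨c, hc, N, h⟩ := Pool.Agent.Lib.helper27.WPNT.weak_pnt hε
  refine ⟨N + 1, fun x hx => ?_⟩
  have x0 : 0 ≤ x := le_trans (by positivity) hx
  have h1 : N + 1 ≤ ⌊x⌋₊ := Nat.le_floor hx
  have h2 := h ⌊x⌋₊ (by omega)
  have h3 : (0 : ℝ) < c * ⌊x⌋₊ := mul_pos hc (by exact_mod_cast (show 0 < ⌊x⌋₊ by omega))
  obtain ⟨p, hp, -⟩ := exists_ne_zero_of_sum_ne_zero (h3.trans_le h2).ne'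
  obtain ⟨a1, a2, a3⟩ := mem_filter.mp hp
  have a4 : (p : ℝ) ≤ ⌊x⌋₊ := by exact_mod_cast Nat.lt_succ_iff.mp (mem_range.mp a1)
  have a5 := Nat.floor_le x0
  have a6 := Nat.lt_floor_add_one x
  refine ⟨p, a2, ?_, a4.trans a5⟩
  nlinarith

theorem main {ε : ℝ} (hε : 0 < ε) : ∃ N : ℕ, ∀ n : ℕ, N ≤ n →
    ∃ K : ℕ, (K : ℝ) ≤ (29 / 30 + ε) * n ∧ Col (Icc (1 : ℤ) n ×ˢ Icc (1 : ℤ) n) K := by
  obtain ⟨δ, d0, d1, d2⟩ : ∃ δ : ℝ, 0 < δ ∧ δ ≤ 1 / 100 ∧ 4 * δ ≤ ε :=
    ⟨min (1 / 100) (ε / 4), by positivity, min_le_left _ _, by linarith [min_le_right (1 / 100) (ε / 4)]⟩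
  obtain ⟨p0, h⟩ := two_level d0
  obtain ⟨N, hN⟩ := prime_near d0
  refine ⟨4 * N + 4 * p0 + ⌈20 / δ⌉₊, fun n hn => ?_⟩
  have n1 : (4 * N + 4 * p0 + ⌈20 / δ⌉₊ : ℝ) ≤ n := by exact_mod_cast hn
  have n2 : 20 ≤ δ * n := by
    have := Nat.le_ceil (20 / δ)
    rw [div_le_iff₀ d0] at this
    have h1 : (⌈20 / δ⌉₊ : ℝ) ≤ n := by
      have : (0 : ℝ) ≤ 4 * N + 4 * p0 := by positivity
      linarith
    nlinarith
  have n0 : (0 : ℝ) ≤ n := by positivity
  have n3 : δ * (δ * n) ≤ 1 / 100 * (δ * n) := by gcongr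
  have n4 : δ * n ≤ 1 / 100 * n := by gcongr
  have n5 : (0 : ℝ) ≤ ⌈20 / δ⌉₊ := by positivity
  have n6 : (0 : ℝ) ≤ N := by positivity
  have n7 : (0 : ℝ) ≤ p0 := by positivity
  obtain ⟨p, pp, p1, p2⟩ := hN ((2 / 3 + δ) * n) (by nlinarith)
  obtain ⟨q, qp, q1, q2⟩ := hN ((3 / 10 + δ) * n) (by nlinarith)
  have i1 : 2 * n + 5 ≤ 3 * p := by
    have : (2 * n + 5 : ℝ) ≤ 3 * p := by nlinarith
    exact_mod_cast this
  have i2 : 3 * n + 4 ≤ 10 * q := by
    have : (3 * n + 4 : ℝ) ≤ 10 * q := by nlinarith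
    exact_mod_cast this
  have i3 : p + q ≤ n := by
    have : (p + q : ℝ) ≤ n := by nlinarith
    exact_mod_cast this
  have i4 : 2000 ≤ n := by
    have : (2000 : ℝ) ≤ n := by linarith
    exact_mod_cast this
  have o1 := pp.eq_two_or_odd
  have o2 := qp.eq_two_or_odd
  obtain ⟨K, k1, k2⟩ := h p q pp qp (by omega) (by omega) (((n : ℤ) - p) / 2) ((p : ℤ) / 2)
    (by unfold Par; omega) (by omega)
  refine ⟨K, by nlinarith, Col.pull (fun a => (a.1 - 1 - (p : ℤ) / 2 - ((n : ℤ) - p) / 2,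
    a.2 - 1 - ((n : ℤ) - p) / 2)) (fun a b e => ?_) (fun a b c h => ?_) (k2.mono fun a ha => ?_)⟩
  · simp only [Prod.mk.injEq] at e
    exact Prod.ext (by omega) (by omega)
  · rw [← h]; simp only [det]; ring
  · obtain ⟨a, ha', rfl⟩ := mem_image.mp ha
    simp only [mem_product, mem_Icc] at ha'
    rw [mem_grid]
    dsimp only
    omega

end Pool.Agent.H.MP_1efb31_co
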