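import Pool.Agent.H.MP_1efb31_co.E

namespace Pool.Agent.H.MP_1efb31_co

lemma det_of_collinear {a b c : P}
    (h : Collinear ℝ ({!₂[(a.1 : ℝ), a.2], !₂[(b.1 : ℝ), b.2], !₂[(c.1 : ℝ), c.2]} :
      Set (EuclideanSpace ℝ (Fin 2)))) : det a b c = 0 := by
  obtain ⟨v, hv⟩ := (collinear_iff_of_mem (p₀ := !₂[(a.1 : ℝ), a.2]) (by simp)).mp h
  obtain ⟨r, hr⟩ := hv !₂[(b.1 : ℝ), b.2] (by simp)
  obtain ⟨s, hs⟩ := hv !₂[(c.1 : ℝ), c.2] (by simp)
  have r0 := congrArg (fun x => x 0) hr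
  have r1 := congrArg (fun x => x 1) hr
  have s0 := congrArg (fun x => x 0) hs
  have s1 := congrArg (fun x => x 1) hs
  simp at r0 r1 s0 s1
  have : ((det a b c : ℤ) : ℝ) = 0 := by
    unfold det
    push_cast
    rw [r0, r1, s0, s1]
    ring
  exact_mod_cast this

end Pool.Agent.H.MP_1efb31_co
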